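import Pool.Agent.N363.CND.BlockThm

/-!
Four blocks joined as a subdivided complete graph on four vertices.
-/

set_option autoImplicit false

namespace Pool.Agent.N363.CND

open SimpleGraph

/-- the four blocks -/
abbrev K := ZMod 2 × ZMod 2

/-- the neighbour of the block `v` in the colour `c` -/
def sh (c : Fin 3) (v : K) : K := v + (![(1, 0), (0, 1), (1, 1)] : Fin 3 → K) c

/-- the two connectors of a colour are numbered by `cl` -/
def cl (c : Fin 3) (v : K) : ZMod 2 := (![v.2, v.1, v.1 + v.2] : Fin 3 → ZMod 2) c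

theorem cl_sh : ∀ a v, cl a (sh a v) = cl a v := by decide

theorem cl_sh_sh : ∀ a b c v, a ≠ b → b ≠ c → a ≠ c → cl b (sh a v) = cl b (sh c v) := by decide

theorem cl_cases : ∀ a c v r, a ≠ c → r = cl a v ∨ r = cl a (sh c v) := by decide

theorem sh_cases : ∀ a b c v k, a ≠ b → b ≠ c → a ≠ c →
    k = v ∨ k = sh a v ∨ k = sh b v ∨ k = sh c v := by decide

theorem cl_pair : ∀ c v k k', cl c k = cl c v → cl c k' = cl c v → k ≠ k' → k = v ∨ k' = v := by
  decide

theorem cl_surj : ∀ c r, ∃ v, cl c v = r := by decide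

theorem others : ∀ a : Fin 3, ∃ b c, a ≠ b ∧ b ≠ c ∧ a ≠ c := by decide

variable {N : ℕ}

/-- the vertices: the blocks and the six connectors -/
abbrev W (N : ℕ) := (K × Fin N) ⊕ (Fin 3 × ZMod 2)

/-- adjacency -/
def bigAdj (A : SimpleGraph (Option (Fin N))) (port : Fin 3 → Fin N) : W N → W N → Prop
  | Sum.inl x, Sum.inl y => x.1 = y.1 ∧ A.Adj (some x.2) (some y.2)
  | Sum.inl x, Sum.inr y => x.2 = port y.1 ∧ cl y.1 x.1 = y.2
  | Sum.inr y, Sum.inl x => x.2 = port y.1 ∧ cl y.1 x.1 = y.2
  | Sum.inr _, Sum.inr _ => False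

/-- the graph -/
def big (A : SimpleGraph (Option (Fin N))) (port : Fin 3 → Fin N) : SimpleGraph (W N) where
  Adj := bigAdj A port
  symm := ⟨by
    rintro (x | x) (y | y) h
    · exact ⟨h.1.symm, h.2.symm⟩
    · exact h
    · exact h
    · exact h⟩
  loopless := ⟨by
    rintro (x | x) h
    · exact A.loopless.irrefl _ h.2
    · exact h⟩

/-- the connector of the block `v` in the colour `c` -/
def kk (c : Fin 3) (v : K) : W N := Sum.inr (c, cl c v)

theorem adj_kk {A : SimpleGraph (Option (Fin N))} {port : Fin 3 → Fin N} {c : Fin 3} {v w : K}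
    (h : cl c v = cl c w) : (big A port).Adj (Sum.inl (v, port c)) (kk c w) := ⟨rfl, h⟩

theorem kk_adj {A : SimpleGraph (Option (Fin N))} {port : Fin 3 → Fin N} {c : Fin 3} {v w : K}
    (h : cl c v = cl c w) : (big A port).Adj (kk c w) (Sum.inl (v, port c)) := ⟨rfl, h⟩

/-- a path from `x` to `y` as a list -/
structure Seg {V : Type*} (G : SimpleGraph V) (x y : V) (l : List V) : Prop where
  chain : l.IsChain G.Adj
  head : l.head? = some x
  last : l.getLast? = some y

theorem Seg.append {V : Type*} {G : SimpleGraph V} {x y x' y' : V} {l l' : List V}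
    (h : Seg G x y l) (h' : Seg G x' y' l') (hyx : G.Adj y x') : Seg G x y' (l ++ l') where
  chain := by
    refine h.chain.append h'.chain ?_
    intro a ha b hb
    rw [h.last, Option.mem_def, Option.some.injEq] at ha
    rw [h'.head, Option.mem_def, Option.some.injEq] at hb
    rw [← ha, ← hb]
    exact hyx
  head := by rw [List.head?_append, h.head]; rfl
  last := by rw [List.getLast?_append, h'.last]; rfl

theorem Seg.single {V : Type*} {G : SimpleGraph V} (x : V) : Seg G x x [x] :=
  ⟨List.isChain_singleton x, rfl, rfl⟩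

theorem Seg.reverse {V : Type*} {G : SimpleGraph V} {x y : V} {l : List V} (h : Seg G x y l) :
    Seg G y x l.reverse where
  chain := by
    rw [List.isChain_reverse]
    exact h.chain.imp fun _ _ h' => h'.symm
  head := by rw [List.head?_reverse, h.last]
  last := by rw [List.getLast?_reverse, h.head]

/-- the block without the vertex `none` -/
def core (A : SimpleGraph (Option (Fin N))) : SimpleGraph (Fin N) := A.comap some

theorem Seg.lift {A : SimpleGraph (Option (Fin N))} {port : Fin 3 → Fin N} {x y : Fin N}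
    {l : List (Fin N)} (h : Seg (core A) x y l) (v : K) :
    Seg (big A port) (Sum.inl (v, x)) (Sum.inl (v, y)) (l.map fun a => Sum.inl (v, a)) where
  chain := by
    rw [List.isChain_map]
    exact h.chain.imp fun a b h' => ⟨rfl, h'⟩
  head := by rw [List.head?_map, h.head]; rfl
  last := by rw [List.getLast?_map, h.last]; rfl

/-- the properties of the blocks used for the construction of long paths -/
structure BlockProp (B : SimpleGraph (Fin N)) (port : Fin 3 → Fin N) : Prop where
  inj : Function.Injective port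
  ham : ∀ i j, i ≠ j → ∃ l, Seg B (port i) (port j) l ∧ (∀ v, v ∈ l) ∧ l.length = N
  ham' : ∀ i j k, i ≠ j → j ≠ k → i ≠ k → ∃ l, Seg B (port j) (port k) l ∧
    (∀ v, v ≠ port i → v ∈ l) ∧ l.length + 1 = N
  two : ∀ x, ∃ a b c l1 l2, a ≠ b ∧ b ≠ c ∧ a ≠ c ∧ Seg B x (port a) l1 ∧
    Seg B (port b) (port c) l2 ∧ (∀ v, v ∈ l1 ∨ v ∈ l2) ∧ l1.length + l2.length = N

theorem three : ∀ a b c d : Fin 3, a ≠ b → b ≠ c → a ≠ c → d = a ∨ d = b ∨ d = c := by decide

theorem mem_bl {v k : K} {q : Fin N} {l : List (Fin N)} :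
    (Sum.inl (k, q) : W N) ∈ l.map (fun q => (Sum.inl (v, q) : W N)) ↔ k = v ∧ q ∈ l := by
  simp only [List.mem_map, Sum.inl.injEq, Prod.mk.injEq]
  constructor
  · rintro ⟨q', h1, rfl, rfl⟩
    exact ⟨rfl, h1⟩
  · rintro ⟨rfl, h⟩
    exact ⟨q, h, rfl, rfl⟩

theorem mem_kk {c d : Fin 3} {v : K} {r : ZMod 2} :
    (Sum.inr (c, r) : W N) = kk d v ↔ c = d ∧ r = cl d v := by
  simp [kk]

theorem long_paths {A : SimpleGraph (Option (Fin N))} {port : Fin 3 → Fin N}
    (h : BlockProp (core A) port) (u : W N) :
    ∃ (y m : W N) (l : List (W N)), Seg (big A port) u y l ∧ (∀ w, w ≠ m → w ∈ l) ∧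
      l.length = 4 * N + 5 := by
  rcases u with ⟨v, x⟩ | ⟨a, r⟩
  · obtain ⟨a, b, c, l1, l2, hab, hbc, hac, h1, h2, hall, hlen⟩ := h.two x
    obtain ⟨m1, s1, c1, e1⟩ := h.ham a b hab
    obtain ⟨n1, t1, d1, f1⟩ := h.ham' c b a hbc.symm hab.symm hac.symm
    have g10 : Seg (big A port) (kk c v) (Sum.inl (sh c v, port c)) _ :=
      (Seg.single _).append (Seg.single _) (kk_adj (cl_sh c v))
    have g9 := (h2.lift v).append g10 (adj_kk rfl)
    have g8 := (Seg.single (kk b v)).append g9 (kk_adj rfl)
    have g7 := (s1.lift (sh b v)).append g8 (adj_kk (cl_sh b v))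
    have g6 := (Seg.single (kk a (sh c v))).append g7
      (kk_adj (cl_sh_sh b a c v hab.symm hac hbc))
    have g5 := (t1.lift (sh c v)).append g6 (adj_kk rfl)
    have g4 := (Seg.single (kk b (sh a v))).append g5
      (kk_adj (cl_sh_sh c b a v hbc.symm hab.symm hac.symm))
    have g3 := (s1.lift (sh a v)).append g4 (adj_kk rfl)
    have g2 := (Seg.single (kk a v)).append g3 (kk_adj (cl_sh a v))
    have g1 := (h1.lift v).append g2 (adj_kk rfl)
    refine ⟨_, kk c (sh a v), _, g1, ?_, ?_⟩
    · rintro (⟨k, q⟩ | ⟨d, r⟩) hw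
      · simp only [List.mem_append, mem_bl, List.mem_singleton]
        rcases sh_cases a b c v k hab hbc hac with rfl | rfl | rfl | rfl
        · rcases hall q with h' | h' <;> simp [h']
        · simp [c1 q]
        · simp [c1 q]
        · by_cases hq : q = port c
          · simp [hq]
          · simp [d1 q hq]
      · simp only [List.mem_append, List.mem_singleton, mem_kk]
        rw [Ne, mem_kk] at hw
        rcases three a b c d hab hbc hac with rfl | rfl | rfl
        · rcases cl_cases d c v r hac with h' | h' <;> simp [← h']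
        · rcases cl_cases d a v r hab.symm with h' | h' <;> simp [← h']
        · rcases cl_cases d a v r hac.symm with h' | h'
          · simp [← h']
          · exact absurd ⟨rfl, h'⟩ hw
    · simp only [List.length_append, List.length_map, List.length_singleton]
      omega
  · obtain ⟨v, rfl⟩ := cl_surj a r
    obtain ⟨b, c, hab, hbc, hac⟩ := others a
    obtain ⟨m1, s1, c1, e1⟩ := h.ham a b hab
    obtain ⟨m2, s2, c2, e2⟩ := h.ham c b hbc.symm
    obtain ⟨n1, t1, d1, f1⟩ := h.ham' a b c hab hbc hac
    have g10 : Seg (big A port) (kk a (sh c v)) (Sum.inl (sh b v, port a)) _ :=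
      (Seg.single _).append (Seg.single _) (kk_adj (cl_sh_sh b a c v hab.symm hac hbc))
    have g9 := (s1.reverse.lift (sh c v)).append g10 (adj_kk rfl)
    have g8 := (Seg.single (kk b (sh a v))).append g9
      (kk_adj (cl_sh_sh c b a v hbc.symm hab.symm hac.symm))
    have g7 := (s2.lift (sh a v)).append g8 (adj_kk rfl)
    have g6 := (Seg.single (kk c (sh b v))).append g7
      (kk_adj (cl_sh_sh a c b v hac hbc.symm hab))
    have g5 := (t1.lift (sh b v)).append g6 (adj_kk rfl)
    have g4 := (Seg.single (kk b v)).append g5 (kk_adj (cl_sh b v))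
    have g3 := (s1.lift v).append g4 (adj_kk rfl)
    have g2 := (Seg.single (kk a v)).append g3 (kk_adj rfl)
    refine ⟨_, kk c v, _, g2, ?_, ?_⟩
    · rintro (⟨k, q⟩ | ⟨d, r⟩) hw
      · simp only [List.mem_append, mem_bl, List.mem_singleton]
        rcases sh_cases a b c v k hab hbc hac with rfl | rfl | rfl | rfl
        · simp [c1 q]
        · simp [c2 q]
        · by_cases hq : q = port a
          · simp [hq]
          · simp [d1 q hq]
        · simp [c1 q]
      · simp only [List.mem_append, List.mem_singleton, mem_kk]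
        rw [Ne, mem_kk] at hw
        rcases three a b c d hab hbc hac with rfl | rfl | rfl
        · rcases cl_cases d c v r hac with h' | h' <;> simp [← h']
        · rcases cl_cases d a v r hab.symm with h' | h' <;> simp [← h']
        · rcases cl_cases d b v r hbc.symm with h' | h'
          · exact absurd ⟨rfl, h'⟩ hw
          · simp [← h']
    · simp only [List.length_append, List.length_map, List.length_singleton, List.length_reverse]
      omega

end Pool.Agent.N363.CND
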