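import Pool.Agent.N363.CND.Block

/-!
The first graph of the construction: a long cycle and a vertex `z = none` joined to three vertices
of the cycle far apart.
-/

set_option autoImplicit false

namespace Pool.Agent.N363.CND

open SimpleGraph

/-- the ports -/
def pt (g N : ℕ) (hN : 3 * g + 10 < N) : Fin 3 → Fin N :=
  ![⟨0, by omega⟩, ⟨g + 2, by omega⟩, ⟨2 * g + 4, by omega⟩]

/-- the cycle -/
def cyc (N : ℕ) (hN : 0 < N) : SimpleGraph (Option (Fin N)) :=
  pathTo N N ⊔ edge (some ⟨0, hN⟩) (some ⟨N - 1, by omega⟩)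

/-- the cycle and the vertex `none` joined to the three ports -/
def base (g N : ℕ) (hN : 3 * g + 10 < N) : SimpleGraph (Option (Fin N)) :=
  cyc N (by omega) ⊔ edge none (some (pt g N hN 0)) ⊔ edge none (some (pt g N hN 1)) ⊔
    edge none (some (pt g N hN 2))

theorem pathTo_adj {N k : ℕ} {u v : Option (Fin N)} (h : (pathTo N k).Adj u v) :
    ∃ i j : Fin N, u = some i ∧ v = some j ∧ (i.val + 1 = j.val ∨ j.val + 1 = i.val) := by
  obtain ⟨i, j, h1, h2, h3, h4, h5⟩ := h
  exact ⟨i, j, h1, h2, h5⟩

theorem cyc_adj {N : ℕ} {hN : 0 < N} {u v : Option (Fin N)} (h : (cyc N hN).Adj u v) :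
    ∃ i j : Fin N, u = some i ∧ v = some j ∧ ((i.val + 1 = j.val ∨ j.val + 1 = i.val) ∨
      (i.val = 0 ∧ j.val = N - 1) ∨ (i.val = N - 1 ∧ j.val = 0)) := by
  rw [cyc, sup_adj] at h
  rcases h with h | h
  · obtain ⟨i, j, h1, h2, h3⟩ := pathTo_adj h
    exact ⟨i, j, h1, h2, Or.inl h3⟩
  · rw [edge_adj] at h
    rcases h.1 with ⟨h1, h2⟩ | ⟨h1, h2⟩
    · exact ⟨_, _, h1, h2, Or.inr (Or.inl ⟨rfl, rfl⟩)⟩
    · exact ⟨_, _, h1, h2, Or.inr (Or.inr ⟨rfl, rfl⟩)⟩

theorem noShort_cyc (g N : ℕ) (hN : 3 * g + 10 < N) : NoShort g (cyc N (by omega)) := by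
  refine (noShort_pathTo g N N).add ?_
  intro h
  have := h.symm.lip (fun u => u.elim 0 Fin.val) ?_
  · simp only [Option.elim_some] at this
    omega
  · intro u v huv
    obtain ⟨i, j, rfl, rfl, h3⟩ := pathTo_adj huv
    simp only [Option.elim_some]
    omega

/-- truncated distance from `c` on the path -/
def phi (g N c : ℕ) : Option (Fin N) → ℕ := fun u =>
  u.elim (g + 1) fun i => min ((i.val - c) + (c - i.val)) (g + 1)

theorem noShort_base (g N : ℕ) (hN : 3 * g + 10 < N) : NoShort g (base g N hN) := by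
  have hcyc : ∀ c : ℕ, g + 1 ≤ c → c + g + 2 ≤ N → ∀ u v, (cyc N (by omega)).Adj u v →
      phi g N c u ≤ phi g N c v + 1 := by
    intro c hc hc' u v huv
    obtain ⟨i, j, rfl, rfl, h3⟩ := cyc_adj huv
    simp only [phi, Option.elim_some]
    omega
  have h0 : NoShort g (cyc N (by omega) ⊔ edge none (some (pt g N hN 0))) := by
    refine (noShort_cyc g N hN).add ?_
    intro h
    have := h.lip (fun u => u.elim (g + 1) fun _ => 0) ?_
    · simp only [Option.elim_some, Option.elim_none] at this
      omega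
    · intro u v huv
      obtain ⟨i, j, rfl, rfl, h3⟩ := cyc_adj huv
      simp
  have h1 : NoShort g (cyc N (by omega) ⊔ edge none (some (pt g N hN 0)) ⊔
      edge none (some (pt g N hN 1))) := by
    refine h0.add ?_
    intro h
    have := h.lip (phi g N (g + 2)) ?_
    · simp only [phi, Option.elim_some, Option.elim_none, pt, Matrix.cons_val_one,
        Matrix.cons_val_zero] at this
      omega
    · intro u v huv
      rw [sup_adj] at huv
      rcases huv with huv | huv
      · exact hcyc _ (by omega) (by omega) u v huv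
      · rw [edge_adj] at huv
        rcases huv.1 with ⟨rfl, rfl⟩ | ⟨rfl, rfl⟩ <;>
          simp only [phi, Option.elim_some, Option.elim_none, pt, Matrix.cons_val_zero] <;> omega
  refine h1.add ?_
  intro h
  have := h.lip (phi g N (2 * g + 4)) ?_
  · simp only [phi, Option.elim_some, Option.elim_none, pt, Matrix.cons_val_two,
      Matrix.cons_val_one, Matrix.cons_val_zero, Matrix.tail_cons, Matrix.head_cons] at this
    simp at this
  · intro u v huv
    rw [sup_adj, sup_adj] at huv
    rcases huv with (huv | huv) | huv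
    · exact hcyc _ (by omega) (by omega) u v huv
    · rw [edge_adj] at huv
      rcases huv.1 with ⟨rfl, rfl⟩ | ⟨rfl, rfl⟩ <;>
        simp only [phi, Option.elim_some, Option.elim_none, pt, Matrix.cons_val_zero] <;> omega
    · rw [edge_adj] at huv
      rcases huv.1 with ⟨rfl, rfl⟩ | ⟨rfl, rfl⟩ <;>
        simp only [phi, Option.elim_some, Option.elim_none, pt, Matrix.cons_val_one,
          Matrix.cons_val_zero] <;> omega

theorem card_nb_base (g N : ℕ) (hN : 3 * g + 10 < N) (v : Option (Fin N)) :
    (nb (base g N hN) v).card ≤ 6 :=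
  card_nb_sup_edge (card_nb_sup_edge (card_nb_sup_edge (card_nb_sup_edge
    (card_nb_pathTo N N)))) v

theorem base_adj_none {g N : ℕ} {hN : 3 * g + 10 < N} {v : Option (Fin N)} :
    (base g N hN).Adj none v ↔ ∃ c, v = some (pt g N hN c) := by
  rw [base, sup_adj, sup_adj, sup_adj, edge_adj, edge_adj, edge_adj]
  constructor
  · rintro (((h | h) | h) | h)
    · obtain ⟨i, j, h1, -⟩ := cyc_adj h
      simp at h1
    · rcases h.1 with ⟨-, h1⟩ | ⟨h1, -⟩
      · exact ⟨0, h1⟩
      · simp at h1
    · rcases h.1 with ⟨-, h1⟩ | ⟨h1, -⟩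
      · exact ⟨1, h1⟩
      · simp at h1
    · rcases h.1 with ⟨-, h1⟩ | ⟨h1, -⟩
      · exact ⟨2, h1⟩
      · simp at h1
  · rintro ⟨c, rfl⟩
    fin_cases c <;> simp

theorem base_adj_succ {g N : ℕ} {hN : 3 * g + 10 < N} {i j : Fin N} (h : i.val + 1 = j.val) :
    (base g N hN).Adj (some i) (some j) := by
  rw [base, sup_adj, sup_adj, sup_adj]
  refine Or.inl (Or.inl (Or.inl ?_))
  rw [cyc, sup_adj]
  exact Or.inl ⟨i, j, rfl, rfl, by omega, by omega, Or.inl h⟩

theorem base_adj_close {g N : ℕ} {hN : 3 * g + 10 < N} {i j : Fin N} (h : i.val = 0)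
    (h' : j.val = N - 1) : (base g N hN).Adj (some j) (some i) := by
  rw [base, sup_adj, sup_adj, sup_adj]
  refine Or.inl (Or.inl (Or.inl ?_))
  rw [cyc, sup_adj]
  right
  rw [edge_adj]
  refine ⟨Or.inr ⟨congrArg some (Fin.ext h'), congrArg some (Fin.ext h)⟩, ?_⟩
  intro h7
  have h8 : j.val = i.val := congrArg Fin.val (Option.some.inj h7)
  omega

/-- the vertices of the block -/
def vs (N : ℕ) : Finset (Option (Fin N)) := Finset.univ.erase none

theorem mem_vs {N : ℕ} {v : Option (Fin N)} : v ∈ vs N ↔ v ≠ none := by simp [vs]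

theorem base_hp (g N : ℕ) (hN : 3 * g + 10 < N) :
    HP (base g N hN) (vs N : Set (Option (Fin N))) none (some ⟨0, by omega⟩)
      (some ⟨N - 1, by omega⟩) ((List.finRange N).map some) where
  nodup := (List.nodup_finRange N).map (Option.some_injective _)
  mem v := by
    cases v with
    | none => simp [mem_vs]
    | some i => simp [mem_vs]
  chain := by
    rw [List.isChain_map, List.isChain_iff_getElem]
    intro i hi
    apply base_adj_succ
    simp
  head := by
    rw [List.head?_map, List.head?_eq_getElem?]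
    rw [List.getElem?_eq_getElem (by simp; omega)]
    simp
  last := by
    rw [List.getLast?_map, List.getLast?_eq_getElem?]
    rw [List.getElem?_eq_getElem (by simp; omega)]
    simp
  second q t hq := by
    rintro rfl
    have : none ∈ (List.finRange N).map some := by rw [hq]; simp
    simp at this

end Pool.Agent.N363.CND
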