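import Mathlib

/-!
Adding an edge between two vertices far apart does not create short cycles; balls are small.
-/

set_option autoImplicit false

namespace Pool.Agent.N363.CND

open SimpleGraph

variable {V : Type*}

/-- there is a walk of length at most `k` from `x` to `y` -/
def Near (G : SimpleGraph V) (k : ℕ) (x y : V) : Prop := ∃ p : G.Walk x y, p.length ≤ k

/-- all cycles have length at least `g` -/
def NoShort (g : ℕ) (G : SimpleGraph V) : Prop := ∀ v (p : G.Walk v v), p.IsCycle → g ≤ p.length

theorem Near.symm {G : SimpleGraph V} {k : ℕ} {x y : V} (h : Near G k x y) : Near G k y x := by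
  obtain ⟨p, hp⟩ := h
  exact ⟨p.reverse, by simpa using hp⟩

theorem Near.mono {G G' : SimpleGraph V} (hG : G ≤ G') {k k' : ℕ} (hk : k ≤ k') {x y : V}
    (h : Near G k x y) : Near G' k' x y := by
  obtain ⟨p, hp⟩ := h
  exact ⟨p.mapLe hG, by simpa using hp.trans hk⟩

theorem Near.cons {G : SimpleGraph V} {k : ℕ} {x y z : V} (h : G.Adj x y) (h' : Near G k y z) :
    Near G (k + 1) x z := by
  obtain ⟨p, hp⟩ := h'
  exact ⟨Walk.cons h p, by simpa using hp⟩

theorem Near.concat {G : SimpleGraph V} {k : ℕ} {x y z : V} (h : Near G k x y) (h' : G.Adj y z) :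
    Near G (k + 1) x z := (Near.cons h'.symm h.symm).symm

theorem near_refl (G : SimpleGraph V) (k : ℕ) (x : V) : Near G k x x := ⟨Walk.nil, by simp⟩

/-- Lipschitz functions bound distances from below -/
theorem Near.lip {G : SimpleGraph V} {k : ℕ} {x y : V} (h : Near G k x y) (φ : V → ℕ)
    (hφ : ∀ u v, G.Adj u v → φ u ≤ φ v + 1) : φ x ≤ φ y + k := by
  obtain ⟨p, hp⟩ := h
  have key : ∀ {a b : V} (q : G.Walk a b), φ a ≤ φ b + q.length := by
    intro a b q
    induction q with
    | nil => simp
    | cons h q ih =>
      have := hφ _ _ h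
      simp only [Walk.length_cons]
      omega
  have := key p
  omega

open Classical in
/-- the set of neighbours -/
noncomputable def nb [Fintype V] (G : SimpleGraph V) (v : V) : Finset V :=
  Finset.univ.filter fun u => G.Adj v u

theorem mem_nb [Fintype V] {G : SimpleGraph V} {u v : V} : u ∈ nb G v ↔ G.Adj v u := by
  simp [nb]

open Classical in
/-- the ball -/
noncomputable def ball [Fintype V] (G : SimpleGraph V) (k : ℕ) (v : V) : Finset V :=
  Finset.univ.filter fun u => Near G k v u

theorem mem_ball [Fintype V] {G : SimpleGraph V} {k : ℕ} {u v : V} :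
    u ∈ ball G k v ↔ Near G k v u := by
  simp [ball]

theorem card_ball [Fintype V] {G : SimpleGraph V} {D : ℕ} (hD : ∀ v, (nb G v).card ≤ D) (k : ℕ)
    (v : V) : (ball G k v).card ≤ (D + 1) ^ k := by
  classical
  induction k generalizing v with
  | zero =>
    have : ball G 0 v ⊆ {v} := by
      intro u hu
      rw [mem_ball] at hu
      obtain ⟨p, hp⟩ := hu
      have := Walk.eq_of_length_eq_zero (p := p) (by omega)
      simp [this]
    simpa using Finset.card_le_card this
  | succ k ih =>
    have h1 : ball G (k + 1) v ⊆ {v} ∪ (nb G v).biUnion fun w => ball G k w := by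
      intro u hu
      rw [mem_ball] at hu
      obtain ⟨p, hp⟩ := hu
      cases p with
      | nil => simp
      | cons h q =>
        rw [Finset.mem_union, Finset.mem_biUnion]
        right
        exact ⟨_, mem_nb.2 h, mem_ball.2 ⟨q, by simpa using hp⟩⟩
    have h2 : ((nb G v).biUnion fun w => ball G k w).card ≤ D * (D + 1) ^ k :=
      (Finset.card_biUnion_le_card_mul _ _ _ fun w _ => ih w).trans
        (Nat.mul_le_mul_right _ (hD v))
    calc (ball G (k + 1) v).card ≤ _ := Finset.card_le_card h1
      _ ≤ 1 + D * (D + 1) ^ k := (Finset.card_union_le _ _).trans (by simpa using h2)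
      _ ≤ (D + 1) ^ (k + 1) := by
        have : 1 ≤ (D + 1) ^ k := Nat.one_le_pow _ _ (Nat.succ_pos _)
        rw [pow_succ]
        nlinarith

/-- a cycle through the edge `s(a, b)` gives a walk from `b` to `a` without this edge -/
theorem cycle_edge {G : SimpleGraph V} {a b v : V} (p : G.Walk v v) (hp : p.IsCycle)
    (he : s(a, b) ∈ p.edges) :
    ∃ q : G.Walk b a, s(a, b) ∉ q.edges ∧ q.length + 1 = p.length := by
  classical
  have ha : a ∈ p.support := p.fst_mem_support_of_mem_edges he
  set c := p.rotate a ha with hc
  have hcc : c.IsCycle := hp.rotate ha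
  have hce : s(a, b) ∈ c.edges := (p.rotate_edges a ha).mem_iff.2 he
  have hlen : c.length = p.length := by
    simp [hc]
  rw [← hlen]
  clear_value c
  clear hc
  cases c with
  | nil => exact absurd hcc (by simp)
  | @cons _ u _ h q =>
    rw [Walk.cons_isCycle_iff] at hcc
    obtain ⟨hq, hnot⟩ := hcc
    by_cases hu : u = b
    · subst hu
      exact ⟨q, hnot, by simp⟩
    · rw [Walk.edges_cons, List.mem_cons] at hce
      have hce' : s(a, b) ∈ q.edges := by
        rcases hce with h1 | h1
        · rw [Sym2.eq_iff] at h1
          rcases h1 with ⟨-, h1⟩ | ⟨h1, h2⟩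
          · exact absurd h1.symm hu
          · exact absurd (h1 ▸ h) (G.loopless.irrefl _)
        · exact h1
      have hqr : q.reverse.IsPath := hq.reverse
      have hce2 : s(a, b) ∈ q.reverse.edges := by simpa using hce'
      generalize hqr' : q.reverse = r at hqr hce2
      cases r with
      | nil => simp at hce2
      | @cons _ w _ h2 r =>
        rw [Walk.cons_isPath_iff] at hqr
        rw [Walk.edges_cons, List.mem_cons] at hce2
        have hwb : w = b := by
          rcases hce2 with h1 | h1
          · rw [Sym2.eq_iff] at h1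
            rcases h1 with ⟨-, h1⟩ | ⟨h1, h2'⟩
            · exact h1.symm
            · exact absurd h2 (h1 ▸ G.loopless.irrefl _)
          · exact absurd (r.fst_mem_support_of_mem_edges h1) hqr.2
        subst hwb
        refine ⟨r.concat h.symm, ?_, ?_⟩
        · rw [Walk.edges_concat, List.concat_eq_append, List.mem_append, not_or]
          refine ⟨fun h1 => hqr.2 (r.fst_mem_support_of_mem_edges h1), ?_⟩
          rw [List.mem_singleton, Sym2.eq_iff]
          rintro (⟨h1, h3⟩ | ⟨-, h3⟩)
          · exact hu (h1 ▸ h3 ▸ rfl)
          · exact hu h3.symm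
        · have := congrArg Walk.length hqr'
          rw [Walk.length_reverse, Walk.length_cons] at this
          simp only [Walk.length_concat, Walk.length_cons]
          omega

/-- adding an edge between vertices far apart -/
theorem NoShort.add {g : ℕ} {G : SimpleGraph V} (h : NoShort g G) {a b : V}
    (hab : ¬ Near G g a b) : NoShort g (G ⊔ edge a b) := by
  intro v p hp
  by_cases he : s(a, b) ∈ p.edges
  · obtain ⟨q, hq, hl⟩ := cycle_edge p hp he
    have ht : ∀ e ∈ q.edges, e ∈ G.edgeSet := by
      intro e heq
      have h1 := q.edges_subset_edgeSet heq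
      rw [edgeSet_sup] at h1
      rcases h1 with h1 | h1
      · exact h1
      · have h2 : e = s(a, b) := by
          rw [edge, edgeSet_fromEdgeSet] at h1
          exact h1.1
        exact absurd (h2 ▸ heq) hq
    by_contra hcon
    exact hab (Near.symm ⟨q.transfer G ht, by rw [Walk.length_transfer]; omega⟩)
  · have ht : ∀ e ∈ p.edges, e ∈ G.edgeSet := by
      intro e heq
      have h1 := p.edges_subset_edgeSet heq
      rw [edgeSet_sup] at h1
      rcases h1 with h1 | h1
      · exact h1
      · have h2 : e = s(a, b) := by
          rw [edge, edgeSet_fromEdgeSet] at h1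
          exact h1.1
        exact absurd (h2 ▸ heq) he
    have := h v (p.transfer G ht) (hp.transfer ht)
    simpa using this

end Pool.Agent.N363.CND
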