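import Pool.Agent.N363.CND.Run

/-!
The block: a graph of large girth with three ports.
-/

set_option autoImplicit false

namespace Pool.Agent.N363.CND

open SimpleGraph

section gen

variable {V : Type*} [Fintype V] [DecidableEq V]

omit [Fintype V] [DecidableEq V] in
theorem NoShort.anti {g : ℕ} {G G' : SimpleGraph V} (h : G ≤ G') (hG' : NoShort g G') :
    NoShort g G := by
  intro v p hp
  simpa using hG' v (p.mapLe h) (hp.mapLe h)

omit [Fintype V] [DecidableEq V] in
theorem HP.reverse {G : SimpleGraph V} {S : Set V} {z p x : V} {l : List V}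
    (h : HP G S z p x l) (hz : z ∉ S) : HP G S z x p l.reverse where
  nodup := List.nodup_reverse.2 h.nodup
  mem v := by rw [List.mem_reverse, h.mem]
  chain := by
    rw [List.isChain_reverse]
    exact h.chain.imp fun _ _ h' => h'.symm
  head := by rw [List.head?_reverse, h.last]
  last := by rw [List.getLast?_reverse, h.head]
  second q t hq := by
    rintro rfl
    apply hz
    rw [← h.mem, ← List.mem_reverse, hq]
    simp

omit [Fintype V] [DecidableEq V] in
/-- a Hamiltonian path of `S` with adjacent ends gives a Hamiltonian path of `S` minus a vertex -/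
theorem HP.remove {G : SimpleGraph V} {S : Set V} {z p x : V} {l : List V}
    (h : HP G S z p x l) (hz : z ∉ S) (hpx : G.Adj x p) {u : V} (hu : u ∈ S) (hux : ∃ w ∈ S, w ≠ u) :
    ∃ a b l', HP G (S \ {u}) z a b l' := by
  obtain ⟨s, t, rfl⟩ := List.mem_iff_append.1 ((h.mem u).2 hu)
  have hmem : ∀ v, v ∈ t ++ s ↔ v ∈ S \ {u} := by
    intro v
    rw [Set.mem_sdiff, ← h.mem, Set.mem_singleton_iff]
    have hn := h.nodup
    rw [List.nodup_middle, List.nodup_cons] at hn
    simp only [List.mem_append, List.mem_cons] at hn ⊢
    constructor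
    · intro h1
      refine ⟨by tauto, ?_⟩
      rintro rfl
      exact hn.1 h1.symm
    · rintro ⟨h1, h2⟩
      tauto
  have hne : t ++ s ≠ [] := by
    obtain ⟨w, hw, hwu⟩ := hux
    intro h0
    have := (hmem w).2 ⟨hw, hwu⟩
    rw [h0] at this
    simp at this
  refine ⟨(t ++ s).head hne, (t ++ s).getLast hne, t ++ s, ?_, hmem, ?_, ?_, ?_, ?_⟩
  · have hn := h.nodup
    rw [List.nodup_middle, List.nodup_cons] at hn
    exact List.nodup_append_comm.1 hn.2
  · have hc := h.chain
    have h1 : s.IsChain G.Adj := hc.left_of_append
    have h2 : t.IsChain G.Adj := (hc.right_of_append).tail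
    refine h2.append h1 ?_
    intro a ha b hb
    have ha' : a = x := by
      have := h.last
      rw [List.getLast?_append, List.getLast?_cons] at this
      rw [Option.mem_def] at ha
      rw [ha] at this
      simpa using this
    have hb' : b = p := by
      have := h.head
      rw [List.head?_append] at this
      rw [Option.mem_def] at hb
      rw [hb] at this
      simpa using this
    rw [ha', hb']
    exact hpx
  · exact List.head?_eq_some_head hne
  · exact List.getLast?_eq_some_getLast hne
  · intro q t' hq
    rintro rfl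
    have : q ∈ t ++ s := by rw [hq]; simp
    exact hz ((hmem q).1 this).1

/-- graphs which can be used in the construction -/
structure Ok (Gb : SimpleGraph V) (g : ℕ) (z : V) (D : ℕ) (G : SimpleGraph V) : Prop where
  le : Gb ≤ G
  zadj : ∀ v, G.Adj z v → Gb.Adj z v
  girth : NoShort g G
  deg : ∀ v, (nb G v).card ≤ D

/-- Hamiltonian paths of `S` between any two given vertices -/
theorem Ok.conn {Gb : SimpleGraph V} {g : ℕ} {z : V} {D : ℕ} {G : SimpleGraph V}
    (h : Ok Gb g z D G) {S : Finset V} (hz : z ∉ S) {a b : V} {l0 : List V}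
    (h0 : HP Gb (S : Set V) z a b l0) {u v : V} (hu : u ∈ S) (hv : v ∈ S) (huv : u ≠ v)
    {M : ℕ} (hM : (4 * D + 13) ^ (g + 1) ≤ M) (hS : 4 * M + 11 ≤ S.card) :
    ∃ G' : SimpleGraph V, G ≤ G' ∧ Ok Gb g z (4 * D + 12) G' ∧
      ∃ l, HP G' (S : Set V) z u v l := by
  have hz' : z ∉ (S : Set V) := by simpa using hz
  obtain ⟨G1, hG1, hok1, x, l1, hl1⟩ : ∃ G1 : SimpleGraph V, G ≤ G1 ∧ Ok Gb g z (2 * D + 4) G1 ∧
      ∃ x l, HP G1 (S : Set V) z u x l := by
    by_cases hua : u = a
    · subst hua
      exact ⟨G, le_rfl, ⟨h.le, h.zadj, h.girth, fun v => (h.deg v).trans (by omega)⟩, b, l0,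
        h0.mono h.le⟩
    · have hb : b ≠ z := by
        rintro rfl
        have : b ∈ l0 := List.mem_of_getLast? h0.last
        exact hz' ((h0.mem b).1 this)
      have hcard : 4 * M + 10 ≤ (S.erase a).card := by
        have := Finset.pred_card_le_card_erase (s := S) (a := a)
        omega
      obtain ⟨G1, h1, h2, h3, h4, h5⟩ := run h.girth h.deg (h0.mono h.le) hb (S.erase a)
        (fun x hx => ⟨by simpa using (Finset.mem_erase.1 hx).2, (Finset.mem_erase.1 hx).1,
          fun hxz => hz (hxz ▸ (Finset.mem_erase.1 hx).2), fun h' => absurd h' hz'⟩)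
        (le_trans (Nat.pow_le_pow_left (by omega) _) hM) hcard
      obtain ⟨l, hl⟩ := h5 u (Finset.mem_erase.2 ⟨hua, hu⟩)
      exact ⟨G1, h1, ⟨h.le.trans h1, fun v hv => h.zadj v (h2 v hv), h3, h4⟩, a, l.reverse,
        hl.reverse hz'⟩
  have hx : x ≠ z := by
    rintro rfl
    have : x ∈ l1 := List.mem_of_getLast? hl1.last
    exact hz' ((hl1.mem x).1 this)
  have hcard : 4 * M + 10 ≤ (S.erase u).card := by
    have := Finset.pred_card_le_card_erase (s := S) (a := u)
    omega
  obtain ⟨G2, h1, h2, h3, h4, h5⟩ := run hok1.girth hok1.deg hl1 hx (S.erase u)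
    (fun x hx => ⟨by simpa using (Finset.mem_erase.1 hx).2, (Finset.mem_erase.1 hx).1,
      fun hxz => hz (hxz ▸ (Finset.mem_erase.1 hx).2), fun h' => absurd h' hz'⟩)
    (le_trans (Nat.pow_le_pow_left (by omega) _) hM) hcard
  obtain ⟨l, hl⟩ := h5 v (Finset.mem_erase.2 ⟨huv.symm, hv⟩)
  exact ⟨G2, hG1.trans h1, ⟨hok1.le.trans h1, fun v hv => hok1.zadj v (h2 v hv), h3,
    fun v => (h4 v).trans (by omega)⟩, l, hl⟩

end gen

/-- the path on the vertices `some i`, up to the vertex `k` -/
def pathTo (N k : ℕ) : SimpleGraph (Option (Fin N)) where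
  Adj a b := ∃ i j : Fin N, a = some i ∧ b = some j ∧ i.val ≤ k ∧ j.val ≤ k ∧
    (i.val + 1 = j.val ∨ j.val + 1 = i.val)
  symm := ⟨by rintro a b ⟨i, j, h1, h2, h3, h4, h5⟩; exact ⟨j, i, h2, h1, h4, h3, h5.symm⟩⟩
  loopless := ⟨by
    rintro a ⟨i, j, h1, h2, h3, h4, h5⟩
    have : i = j := Option.some.inj (h1.symm.trans h2)
    subst this
    omega⟩

theorem noShort_pathTo (g N k : ℕ) : NoShort g (pathTo N k) := by
  induction k with
  | zero =>
    intro v p hp
    exfalso
    cases p with
    | nil => simp at hp
    | cons h q =>
      obtain ⟨i, j, h1, h2, h3, h4, h5⟩ := h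
      omega
  | succ k ih =>
    by_cases hk : k + 1 < N
    · let a : Fin N := ⟨k, by omega⟩
      let b : Fin N := ⟨k + 1, hk⟩
      have hle : pathTo N (k + 1) ≤ pathTo N k ⊔ edge (some a) (some b) := by
        intro u v huv
        obtain ⟨i, j, rfl, rfl, h3, h4, h5⟩ := huv
        rw [sup_adj]
        by_cases h6 : i.val ≤ k ∧ j.val ≤ k
        · exact Or.inl ⟨i, j, rfl, rfl, h6.1, h6.2, h5⟩
        · right
          rw [edge_adj]
          constructor
          · rcases h5 with h5 | h5
            · left
              constructor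
              · congr 1; apply Fin.ext; change i.val = k; omega
              · congr 1; apply Fin.ext; change j.val = k + 1; omega
            · right
              constructor
              · congr 1; apply Fin.ext; change i.val = k + 1; omega
              · congr 1; apply Fin.ext; change j.val = k; omega
          · intro h7
            have h8 : i.val = j.val := congrArg Fin.val (Option.some.inj h7)
            omega
      refine NoShort.anti hle (ih.add ?_)
      intro hnear
      have := hnear.lip (fun u => if u = some b then 0 else g + 1) ?_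
      · have hab : (some a : Option (Fin N)) ≠ some b := by
          intro h7
          have h8 : a.val = b.val := congrArg Fin.val (Option.some.inj h7)
          change k = k + 1 at h8
          omega
        simp only [if_neg hab, if_true] at this
        omega
      · rintro u v ⟨i, j, rfl, rfl, h3, h4, h5⟩
        have h1 : (some i : Option (Fin N)) ≠ some b := by
          intro h7
          have h8 : i.val = b.val := congrArg Fin.val (Option.some.inj h7)
          change i.val = k + 1 at h8
          omega
        have h2 : (some j : Option (Fin N)) ≠ some b := by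
          intro h7
          have h8 : j.val = b.val := congrArg Fin.val (Option.some.inj h7)
          change j.val = k + 1 at h8
          omega
        simp only [if_neg h1, if_neg h2]
        omega
    · refine NoShort.anti ?_ ih
      rintro u v ⟨i, j, h1, h2, h3, h4, h5⟩
      exact ⟨i, j, h1, h2, by omega, by omega, h5⟩

theorem card_nb_sup_edge {V : Type*} [Fintype V] [DecidableEq V] {G : SimpleGraph V} {a b : V}
    {D : ℕ} (hD : ∀ v, (nb G v).card ≤ D) : ∀ v, (nb (G ⊔ edge a b) v).card ≤ D + 1 := by
  intro v
  by_cases hab : a = b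
  · subst hab
    have : nb (G ⊔ edge a a) v ⊆ nb G v := by
      intro u hu
      rw [mem_nb] at hu ⊢
      simpa using hu
    exact (Finset.card_le_card this).trans ((hD v).trans (Nat.le_succ _))
  have h := nb_sup_edge (G := G) (a := a) (b := b) (v := v)
  have h1 := Finset.card_le_card h
  have h2 := hD v
  have h3 : (nb G v ∪ (if v = a then {b} else ∅) ∪ (if v = b then {a} else ∅)).card ≤
      (nb G v).card + 1 := by
    by_cases hva : v = a
    · subst hva
      rw [if_pos rfl, if_neg hab, Finset.union_empty]
      exact (Finset.card_union_le _ _).trans (by simp)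
    · rw [if_neg hva, Finset.union_empty]
      by_cases hvb : v = b
      · rw [if_pos hvb]
        exact (Finset.card_union_le _ _).trans (by simp)
      · rw [if_neg hvb, Finset.union_empty]
        omega
  omega

theorem card_nb_pathTo (N k : ℕ) (v : Option (Fin N)) : (nb (pathTo N k) v).card ≤ 2 := by
  classical
  cases v with
  | none =>
    have : nb (pathTo N k) none = ∅ := by
      apply Finset.eq_empty_of_forall_notMem
      intro u hu
      rw [mem_nb] at hu
      obtain ⟨i, j, h1, -⟩ := hu
      simp at h1
    simp [this]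
  | some i =>
    have : (nb (pathTo N k) (some i)).card ≤ ({i.val + 1, i.val - 1} : Finset ℕ).card := by
      refine Finset.card_le_card_of_injOn (fun u => u.elim 0 Fin.val) ?_ ?_
      · intro u hu
        rw [Finset.mem_coe, mem_nb] at hu
        obtain ⟨i', j, h1, rfl, -, -, h5⟩ := hu
        have h1' : i = i' := Option.some.inj h1
        subst h1'
        simp only [Option.elim_some, Finset.coe_insert, Finset.coe_singleton,
          Set.mem_insert_iff, Set.mem_singleton_iff]
        omega
      · intro u hu u' hu' huu
        rw [Finset.mem_coe, mem_nb] at hu hu'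
        obtain ⟨i1, j1, -, rfl, -⟩ := hu
        obtain ⟨i2, j2, -, rfl, -⟩ := hu'
        simp only [Option.elim_some] at huu
        exact congrArg some (Fin.ext huu)
    exact this.trans Finset.card_le_two

end Pool.Agent.N363.CND
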