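import Pool.Agent.N363.CND.Base

/-!
Existence of the blocks.
-/

set_option autoImplicit false

namespace Pool.Agent.N363.CND

open SimpleGraph

theorem HP.through {V : Type*} {G : SimpleGraph V} {S : Set V} {z a b : V} {l : List V}
    (h : HP G S z a b l) (hz : z ∉ S) {u : V} (hu : u ∈ S) (hua : u ≠ a) (hub : u ≠ b)
    (hza : G.Adj z a) (hbz : G.Adj b z) :
    ∃ y l', y ≠ z ∧ HP G (insert z S) z u y l' := by
  obtain ⟨s, t, rfl⟩ := List.mem_iff_append.1 ((h.mem u).2 hu)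
  have hs : s ≠ [] := by
    rintro rfl
    exact hua (by simpa using h.head)
  have ht : t ≠ [] := by
    rintro rfl
    exact hub (by simpa using h.last)
  have hzl : ∀ v ∈ s ++ u :: t, v ≠ z := by
    rintro v hv rfl
    exact hz ((h.mem v).1 hv)
  refine ⟨s.getLast hs, (u :: t) ++ (z :: s), hzl _ (by
    rw [List.mem_append]; exact Or.inl (List.getLast_mem hs)), ?_, ?_, ?_, by simp, ?_, ?_⟩
  · have h1 : ((u :: t) ++ (z :: s)).Perm (z :: (s ++ u :: t)) :=
      List.perm_middle.trans ((List.perm_append_comm (l₁ := u :: t) (l₂ := s)).cons z)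
    rw [h1.nodup_iff, List.nodup_cons]
    exact ⟨fun h' => hzl z h' rfl, h.nodup⟩
  · intro v
    rw [Set.mem_insert_iff, ← h.mem]
    simp only [List.mem_append, List.mem_cons]
    tauto
  · have hc := h.chain
    refine (hc.right_of_append).append ?_ ?_
    · rw [List.isChain_cons]
      refine ⟨?_, hc.left_of_append⟩
      intro y hy
      have : y = a := by
        have h1 := h.head
        rw [List.head?_append] at h1
        rw [Option.mem_def] at hy
        rw [hy] at h1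
        simpa using h1
      rw [this]
      exact hza
    · intro x hx y hy
      have hx' : x = b := by
        have h1 := h.last
        rw [List.getLast?_append] at h1
        rw [Option.mem_def] at hx
        rw [hx] at h1
        simpa using h1
      have hy' : y = z := by simpa using hy.symm
      rw [hx', hy']
      exact hbz
  · rw [List.getLast?_append, List.getLast?_cons]
    rw [List.getLast?_eq_some_getLast hs]
    simp
  · intro q r hq
    rw [List.cons_append, List.cons.injEq] at hq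
    cases t with
    | nil => exact absurd rfl ht
    | cons c t =>
      rw [List.cons_append, List.cons.injEq] at hq
      rw [← hq.2.1]
      exact hzl c (by simp)

theorem all_pairs {P : Fin 3 → Fin 3 → Prop} (hs : ∀ i j, P i j → P j i) (h01 : P 0 1)
    (h02 : P 0 2) (h12 : P 1 2) : ∀ i j, i ≠ j → P i j := by
  intro i j hij
  have h : (i = 0 ∧ j = 1) ∨ (i = 0 ∧ j = 2) ∨ (i = 1 ∧ j = 2) ∨ (i = 1 ∧ j = 0) ∨
      (i = 2 ∧ j = 0) ∨ (i = 2 ∧ j = 1) := by
    revert i j; decide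
  rcases h with ⟨rfl, rfl⟩ | ⟨rfl, rfl⟩ | ⟨rfl, rfl⟩ | ⟨rfl, rfl⟩ | ⟨rfl, rfl⟩ | ⟨rfl, rfl⟩
  exacts [h01, h02, h12, hs _ _ h01, hs _ _ h02, hs _ _ h12]

theorem all_triples {P : Fin 3 → Fin 3 → Fin 3 → Prop} (hs : ∀ i j k, P i j k → P i k j)
    (h0 : P 0 1 2) (h1 : P 1 0 2) (h2 : P 2 0 1) :
    ∀ i j k, i ≠ j → j ≠ k → i ≠ k → P i j k := by
  intro i j k hij hjk hik
  have h : (i = 0 ∧ j = 1 ∧ k = 2) ∨ (i = 0 ∧ j = 2 ∧ k = 1) ∨ (i = 1 ∧ j = 0 ∧ k = 2) ∨
      (i = 1 ∧ j = 2 ∧ k = 0) ∨ (i = 2 ∧ j = 0 ∧ k = 1) ∨ (i = 2 ∧ j = 1 ∧ k = 0) := by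
    revert i j k; decide
  rcases h with ⟨rfl, rfl, rfl⟩ | ⟨rfl, rfl, rfl⟩ | ⟨rfl, rfl, rfl⟩ | ⟨rfl, rfl, rfl⟩ |
    ⟨rfl, rfl, rfl⟩ | ⟨rfl, rfl, rfl⟩
  exacts [h0, hs _ _ _ h0, h1, hs _ _ _ h1, h2, hs _ _ _ h2]

theorem card_erase3 {α : Type*} [DecidableEq α] (S : Finset α) (a b c : α) :
    S.card ≤ (((S.erase a).erase b).erase c).card + 3 := by
  have h1 := Finset.pred_card_le_card_erase (s := S) (a := a)
  have h2 := Finset.pred_card_le_card_erase (s := S.erase a) (a := b)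
  have h3 := Finset.pred_card_le_card_erase (s := (S.erase a).erase b) (a := c)
  omega

theorem arith1 {M g N t : ℕ} (hN : N = 4 * M + 3 * g + 100) (h : N ≤ t + 3) :
    4 * M + 10 ≤ t := by omega

theorem arith2 {M g N t : ℕ} (hN : N = 4 * M + 3 * g + 100) (h : N - 1 ≤ t) :
    4 * M + 11 ≤ t := by omega

/-- the blocks -/
theorem block (g : ℕ) : ∃ (N : ℕ) (G : SimpleGraph (Option (Fin N))) (port : Fin 3 → Fin N),
    Function.Injective port ∧ NoShort g G ∧ (∀ v, G.Adj none v ↔ ∃ c, v = some (port c)) ∧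
    (∀ i j, i ≠ j → ∃ l, HP G {v | v ≠ none} none (some (port i)) (some (port j)) l) ∧
    (∀ i j k, i ≠ j → j ≠ k → i ≠ k → ∃ l, HP G {v | v ≠ none ∧ v ≠ some (port i)} none
      (some (port j)) (some (port k)) l) ∧
    (∀ x : Fin N, (∀ c, x ≠ port c) → ∃ l, HP G Set.univ none (some (port 2)) (some x) l) := by
  classical
  obtain ⟨M, hpow⟩ : ∃ M : ℕ, ∀ a : ℕ, a ≤ 200000 → a ^ (g + 1) ≤ M :=
    ⟨200000 ^ (g + 1), fun a ha => Nat.pow_le_pow_left ha _⟩
  obtain ⟨N, hNdef⟩ : ∃ N : ℕ, N = 4 * M + 3 * g + 100 := ⟨_, rfl⟩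
  have hN : 3 * g + 10 < N := by omega
  obtain ⟨port, hport⟩ : ∃ port, port = pt g N hN := ⟨_, rfl⟩
  have hinj : Function.Injective port := by
    intro a b hab
    have h1 := congrArg Fin.val hab
    rw [hport] at h1
    fin_cases a <;> fin_cases b <;> simp [pt] at h1 ⊢ <;> omega
  have hpne : ∀ i j, i ≠ j → (some (port i) : Option (Fin N)) ≠ some (port j) := fun i j hij h =>
    hij (hinj (Option.some.inj h))
  have hcard : (vs N).card = N := by simp [vs]
  have hcardV : 4 * M + 11 ≤ (vs N).card := by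
    rw [hcard]
    exact arith2 hNdef (Nat.sub_le _ _)
  have hmem : ∀ c, some (port c) ∈ vs N := fun c => mem_vs.2 (by simp)
  have hnone : none ∉ vs N := by simp [mem_vs]
  have h0 : Ok (base g N hN) g none 6 (base g N hN) :=
    ⟨le_rfl, fun _ h => h, noShort_base g N hN, card_nb_base g N hN⟩
  have hb := base_hp g N hN
  have hclose : (base g N hN).Adj (some ⟨N - 1, by omega⟩) (some ⟨0, by omega⟩) :=
    base_adj_close rfl rfl
  -- the lists for the second kind
  have hrem : ∀ i, ∃ a b l, HP (base g N hN) ((vs N).erase (some (port i)) : Set (Option (Fin N)))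
      none a b l := by
    intro i
    obtain ⟨a, b, l, hl⟩ := hb.remove (by simpa using hnone) hclose (u := some (port i))
      (by simpa using hmem i) (by
        obtain ⟨j, hj⟩ : ∃ j : Fin 3, j ≠ i := ⟨i + 1, by fin_cases i <;> decide⟩
        exact ⟨some (port j), by simpa using hmem j, hpne j i hj⟩)
    refine ⟨a, b, l, ?_⟩
    rw [Finset.coe_erase]
    exact hl
  have hcardE : ∀ i, 4 * M + 11 ≤ ((vs N).erase (some (port i))).card := by
    intro i
    refine arith2 hNdef ?_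
    rw [Finset.card_erase_of_mem (hmem i), hcard]
  have hnoneE : ∀ i, none ∉ (vs N).erase (some (port i)) := by
    intro i h
    exact hnone (Finset.mem_erase.1 h).2
  have hmemE : ∀ i j, i ≠ j → some (port j) ∈ (vs N).erase (some (port i)) := fun i j hij =>
    Finset.mem_erase.2 ⟨hpne j i hij.symm, hmem j⟩
  obtain ⟨G1, hG1, ok1, l01, hl01⟩ := h0.conn hnone hb (hmem 0) (hmem 1) (hpne 0 1 (by decide))
    (hpow _ (by norm_num)) hcardV
  obtain ⟨G2, hG2, ok2, l02, hl02⟩ := ok1.conn hnone hb (hmem 0) (hmem 2) (hpne 0 2 (by decide))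
    (hpow _ (by norm_num)) hcardV
  obtain ⟨G3, hG3, ok3, l12, hl12⟩ := ok2.conn hnone hb (hmem 1) (hmem 2) (hpne 1 2 (by decide))
    (hpow _ (by norm_num)) hcardV
  obtain ⟨a0, b0, m0, hm0⟩ := hrem 0
  obtain ⟨a1, b1, m1, hm1⟩ := hrem 1
  obtain ⟨a2, b2, m2, hm2⟩ := hrem 2
  obtain ⟨G4, hG4, ok4, k0, hk0⟩ := ok3.conn (hnoneE 0) hm0 (hmemE 0 1 (by decide))
    (hmemE 0 2 (by decide)) (hpne 1 2 (by decide)) (hpow _ (by norm_num)) (hcardE 0)
  obtain ⟨G5, hG5, ok5, k1, hk1⟩ := ok4.conn (hnoneE 1) hm1 (hmemE 1 0 (by decide))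
    (hmemE 1 2 (by decide)) (hpne 0 2 (by decide)) (hpow _ (by norm_num)) (hcardE 1)
  obtain ⟨G6, hG6, ok6, k2, hk2⟩ := ok5.conn (hnoneE 2) hm2 (hmemE 2 0 (by decide))
    (hmemE 2 1 (by decide)) (hpne 0 1 (by decide)) (hpow _ (by norm_num)) (hcardE 2)
  have hadj : ∀ c, G6.Adj none (some (port c)) := fun c =>
    ok6.le (base_adj_none.2 ⟨c, by rw [hport]⟩)
  have hl01' : HP G6 (vs N : Set (Option (Fin N))) none (some (port 0)) (some (port 1)) l01 :=
    hl01.mono (hG2.trans (hG3.trans (hG4.trans (hG5.trans hG6))))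
  obtain ⟨y, l, hy, hl⟩ := hl01'.through (by simpa using hnone) (u := some (port 2))
    (by simpa using hmem 2) (hpne 2 0 (by decide)) (hpne 2 1 (by decide)) (hadj 0) (hadj 1).symm
  have huniv : insert none (vs N : Set (Option (Fin N))) = Set.univ := by
    ext v
    simp only [Set.mem_insert_iff, Finset.mem_coe, mem_vs, Set.mem_univ, iff_true]
    tauto
  rw [huniv] at hl
  obtain ⟨T, hT⟩ : ∃ T : Finset (Option (Fin N)), T = (((vs N).erase (some (port 0))).erase
    (some (port 1))).erase (some (port 2)) := ⟨_, rfl⟩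
  have hTmem : ∀ x, x ∈ T ↔ x ≠ none ∧ ∀ c, x ≠ some (port c) := by
    intro x
    rw [hT]
    simp only [Finset.mem_erase, mem_vs]
    constructor
    · rintro ⟨h1, h2, h3, h4⟩
      refine ⟨h4, fun c => ?_⟩
      fin_cases c
      · exact h3
      · exact h2
      · exact h1
    · rintro ⟨h1, h2⟩
      exact ⟨h2 2, h2 1, h2 0, h1⟩
  have hTcard : 4 * M + 10 ≤ T.card := by
    refine arith1 hNdef ?_
    rw [hT]
    exact hcard.symm.le.trans (card_erase3 _ _ _ _)
  obtain ⟨G7, hG7, hz7, hg7, -, hT7⟩ := run ok6.girth ok6.deg hl hy T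
    (fun x hx => ⟨Set.mem_univ _, ((hTmem x).1 hx).2 2, ((hTmem x).1 hx).1, fun _ h' => by
      obtain ⟨c, hc⟩ := base_adj_none.1 (ok6.zadj x h')
      exact ((hTmem x).1 hx).2 c (by rw [hport]; exact hc)⟩) (hpow _ (by norm_num)) hTcard
  have hset : (vs N : Set (Option (Fin N))) = {v | v ≠ none} := by
    ext v
    simp [mem_vs]
  have hsetE : ∀ i, ((vs N).erase (some (port i)) : Set (Option (Fin N))) =
      {v | v ≠ none ∧ v ≠ some (port i)} := by
    intro i
    ext v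
    simp [mem_vs]
  have hn1 : none ∉ {v : Option (Fin N) | v ≠ none} := by simp
  have hn2 : ∀ i, none ∉ {v : Option (Fin N) | v ≠ none ∧ v ≠ some (port i)} := by simp
  rw [hset] at hl01 hl02 hl12
  rw [hsetE] at hk0 hk1 hk2
  have e01 := hl01.mono (hG2.trans (hG3.trans (hG4.trans (hG5.trans (hG6.trans hG7)))))
  have e02 := hl02.mono (hG3.trans (hG4.trans (hG5.trans (hG6.trans hG7))))
  have e12 := hl12.mono (hG4.trans (hG5.trans (hG6.trans hG7)))
  have f0 := hk0.mono (hG5.trans (hG6.trans hG7))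
  have f1 := hk1.mono (hG6.trans hG7)
  have f2 := hk2.mono hG7
  refine ⟨N, G7, port, hinj, hg7, ?_, ?_, ?_, ?_⟩
  · intro v
    constructor
    · intro h
      rw [hport]
      exact base_adj_none.1 (ok6.zadj v (hz7 v h))
    · rintro ⟨c, rfl⟩
      exact hG7 (hadj c)
  · exact all_pairs (fun i j ⟨l, h⟩ => ⟨_, h.reverse hn1⟩) ⟨_, e01⟩ ⟨_, e02⟩ ⟨_, e12⟩
  · exact all_triples (fun i j k ⟨l, h⟩ => ⟨_, h.reverse (hn2 i)⟩) ⟨_, f0⟩ ⟨_, f1⟩ ⟨_, f2⟩
  · intro x hx
    exact hT7 (some x) ((hTmem _).2 ⟨by simp, fun c h => hx c (Option.some.inj h)⟩)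

end Pool.Agent.N363.CND
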