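import Pool.Agent.N363.CND.Asm

/-!
The graph has no short cycles.
-/

set_option autoImplicit false

namespace Pool.Agent.N363.CND

open SimpleGraph

variable {N : ℕ}

/-- the projection of the vertices -/
def prj : W N → Option (Fin N)
  | Sum.inl x => some x.2
  | Sum.inr _ => none

/-- the projection of the graph -/
def prjHom (A : SimpleGraph (Option (Fin N))) (port : Fin 3 → Fin N)
    (hz : ∀ v, A.Adj none v ↔ ∃ c, v = some (port c)) : big A port →g A where
  toFun := prj
  map_rel' := by
    rintro (a | a) (b | b) h
    · exact h.2
    · have h1 : a.2 = port b.1 := h.1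
      change A.Adj (some a.2) none
      rw [h1]
      exact ((hz _).2 ⟨_, rfl⟩).symm
    · have h1 : b.2 = port a.1 := h.1
      change A.Adj none (some b.2)
      rw [h1]
      exact (hz _).2 ⟨_, rfl⟩
    · exact h.elim

theorem same_block {A : SimpleGraph (Option (Fin N))} {port : Fin 3 → Fin N} {v : K} {x w : W N}
    (p : (big A port).Walk x w) (hx : ∃ a, x = Sum.inl (v, a))
    (hp : ∀ y, Sum.inr y ∉ p.support) : ∀ u ∈ p.support, ∃ b, u = Sum.inl (v, b) := by
  induction p with
  | nil =>
    intro u hu
    rw [Walk.support_nil, List.mem_singleton] at hu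
    rw [hu]
    exact hx
  | @cons x y z h q ih =>
    intro u hu
    rw [Walk.support_cons, List.mem_cons] at hu
    rcases hu with rfl | hu
    · exact hx
    · refine ih ?_ (fun y' hy => hp y' ?_) u hu
      · obtain ⟨a, rfl⟩ := hx
        rcases y with ⟨k, b⟩ | y
        · have h1 : v = k := h.1
          exact ⟨b, by rw [h1]⟩
        · exact absurd (by rw [Walk.support_cons]; exact List.mem_cons_of_mem _ q.start_mem_support)
            (hp y)
      · rw [Walk.support_cons]
        exact List.mem_cons_of_mem _ hy

theorem exit_block {A : SimpleGraph (Option (Fin N))} {port : Fin 3 → Fin N} {v : K} {x w : W N}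
    {c : Fin 3} (p : (big A port).Walk x w) {a : Fin N} (hx : x = Sum.inl (v, a))
    (hw : ∀ b, w ≠ Sum.inl (v, b)) (hp : kk c v ∉ p.support) :
    ∃ c', c' ≠ c ∧ Near (core A) p.length a (port c') := by
  induction p generalizing a with
  | nil => exact absurd hx (hw a)
  | @cons x y z h q ih =>
    subst hx
    rw [Walk.support_cons, List.mem_cons, not_or] at hp
    rcases y with ⟨k, b⟩ | ⟨c', r⟩
    · have h1 : v = k := h.1
      subst h1
      obtain ⟨c', hc', hn⟩ := ih rfl hw hp.2
      exact ⟨c', hc', Near.cons h.2 hn⟩
    · have h1 : a = port c' := h.1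
      have h2 : cl c' v = r := h.2
      refine ⟨c', ?_, h1 ▸ near_refl _ _ _⟩
      rintro rfl
      refine hp.2 ?_
      rw [kk, h2]
      exact q.start_mem_support

/-- ports are far apart -/
theorem port_far {A : SimpleGraph (Option (Fin N))} {port : Fin 3 → Fin N} {g : ℕ}
    (hA : NoShort g A) (hinj : Function.Injective port)
    (hz : ∀ v, A.Adj none v ↔ ∃ c, v = some (port c)) {c c' : Fin 3} (hc : c' ≠ c) {k : ℕ}
    (h : Near (core A) k (port c) (port c')) : g ≤ k + 2 := by
  classical
  obtain ⟨p, hp⟩ := h
  let f : core A →g A := ⟨some, fun h => h⟩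
  have hf : Function.Injective f := Option.some_injective _
  let P : A.Walk (some (port c)) (some (port c')) := p.bypass.map f
  have hP : P.IsPath := Walk.map_isPath_of_injective hf p.bypass_isPath
  have hnone : none ∉ P.support := by
    intro h
    rw [Walk.support_map, List.mem_map] at h
    obtain ⟨x, -, hx⟩ := h
    cases hx
  have hlen : P.length ≤ k := by
    rw [Walk.length_map]
    exact p.length_bypass_le.trans hp
  have h1 : A.Adj none (some (port c)) := (hz _).2 ⟨_, rfl⟩
  have h2 : A.Adj (some (port c')) none := ((hz _).2 ⟨_, rfl⟩).symm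
  have hcyc : (Walk.cons h1 (P.concat h2)).IsCycle := by
    rw [Walk.cons_isCycle_iff]
    refine ⟨?_, ?_⟩
    · rw [Walk.concat_isPath_iff]
      exact ⟨hP, hnone⟩
    · rw [Walk.edges_concat, List.concat_eq_append, List.mem_append, not_or]
      refine ⟨fun h => hnone (P.fst_mem_support_of_mem_edges h), ?_⟩
      rw [List.mem_singleton, Sym2.eq_iff]
      rintro (⟨h, -⟩ | ⟨-, h⟩)
      · cases h
      · exact hc (hinj (Option.some.inj h)).symm
  have := hA _ _ hcyc
  rw [Walk.length_cons, Walk.length_concat] at this
  omega

theorem noShort_big {A : SimpleGraph (Option (Fin N))} {port : Fin 3 → Fin N} {g : ℕ}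
    (hA : NoShort g A) (hinj : Function.Injective port)
    (hz : ∀ v, A.Adj none v ↔ ∃ c, v = some (port c)) : NoShort g (big A port) := by
  classical
  intro w p hp
  by_cases hc : ∃ y, Sum.inr y ∈ p.support
  · obtain ⟨y, hy⟩ := hc
    have hrot : (p.rotate _ hy).IsCycle := hp.rotate hy
    have hlen : (p.rotate _ hy).length = p.length := by simp
    rw [← hlen]
    generalize p.rotate _ hy = c at hrot
    clear hlen hp hy p
    cases c with
    | nil => exact absurd hrot (by simp)
    | @cons _ x _ h q =>
      rw [Walk.cons_isCycle_iff] at hrot
      obtain ⟨hq, hnot⟩ := hrot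
      obtain ⟨c, r⟩ := y
      rcases x with ⟨v, x⟩ | x
      swap
      · exact h.elim
      have h1 : x = port c := h.1
      have h2 : cl c v = r := h.2
      subst h1
      subst h2
      have hqr : q.reverse.IsPath := hq.reverse
      have hql : q.reverse.length = q.length := by simp
      have hnot' : s(Sum.inr (c, cl c v), Sum.inl (v, port c)) ∉ q.reverse.edges := by
        rw [Walk.edges_reverse, List.mem_reverse]
        exact hnot
      rw [Walk.length_cons, ← hql]
      generalize q.reverse = t at hqr hnot'
      clear hql hnot hq q
      cases t with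
      | @cons _ x _ h' t =>
        rw [Walk.cons_isPath_iff] at hqr
        rw [Walk.edges_cons, List.mem_cons, not_or] at hnot'
        rcases x with ⟨v', x⟩ | x
        swap
        · exact h'.elim
        have h1 : x = port c := h'.1
        have h2 : cl c v' = cl c v := h'.2
        subst h1
        have hvv : v ≠ v' := by
          rintro rfl
          exact hnot'.1 rfl
        obtain ⟨c', hc', hn⟩ := exit_block (v := v') (c := c) t rfl
          (fun b hb => by
            rw [Sum.inl.injEq, Prod.mk.injEq] at hb
            exact hvv hb.1)
          (by rw [kk, h2]; exact hqr.2)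
        have := port_far hA hinj hz hc' hn
        rw [Walk.length_cons]
        omega
  · push Not at hc
    rcases w with ⟨v, a⟩ | w
    swap
    · exact absurd p.start_mem_support (hc w)
    have hsb := same_block p ⟨a, rfl⟩ hc
    have hinj' : ∀ x ∈ p.support, ∀ y ∈ p.support, prj x = prj y → x = y := by
      intro x hx y hy hxy
      obtain ⟨b, rfl⟩ := hsb x hx
      obtain ⟨b', rfl⟩ := hsb y hy
      have : b = b' := Option.some.inj hxy
      rw [this]
    have hcyc : (p.map (prjHom A port hz)).IsCycle := by
      cases p with
      | nil => exact absurd hp (by simp)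
      | @cons _ u _ h q =>
        rw [Walk.cons_isCycle_iff] at hp
        rw [Walk.map_cons, Walk.cons_isCycle_iff]
        have hq' : ∀ x ∈ q.support, x ∈ (Walk.cons h q).support := fun x hx => by
          rw [Walk.support_cons]
          exact List.mem_cons_of_mem _ hx
        refine ⟨?_, ?_⟩
        · rw [Walk.isPath_def, Walk.support_map]
          exact List.Nodup.map_on (fun x hx y hy hxy => hinj' x (hq' x hx) y (hq' y hy) hxy)
            ((Walk.isPath_def _).1 hp.1)
        · rw [Walk.edges_map]
          intro hm
          rw [List.mem_map] at hm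
          obtain ⟨e, he, heq⟩ := hm
          induction e using Sym2.ind with
          | _ x y =>
            have hx := q.fst_mem_support_of_mem_edges he
            have hy := q.snd_mem_support_of_mem_edges he
            rw [Sym2.map_mk, Sym2.eq_iff] at heq
            have ha := (Walk.cons h q).start_mem_support
            have hu := hq' _ q.start_mem_support
            rcases heq with ⟨e1, e2⟩ | ⟨e1, e2⟩
            · have e1 := hinj' _ (hq' _ hx) _ ha e1
              have e2 := hinj' _ (hq' _ hy) _ hu e2
              subst e1 e2
              exact hp.2 he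
            · have e1 := hinj' _ (hq' _ hx) _ hu e1
              have e2 := hinj' _ (hq' _ hy) _ ha e2
              subst e1 e2
              rw [Sym2.eq_swap] at he
              exact hp.2 he
    have := hA _ _ hcyc
    rw [Walk.length_map] at this
    exact this

end Pool.Agent.N363.CND
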