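import Pool.Agent.N363.CND.Asm

/-!
The graph has no Hamiltonian path.
-/

set_option autoImplicit false

namespace Pool.Agent.N363.CND

open SimpleGraph

section lists

variable {α : Type*} [DecidableEq α]

/-- the number of times `p` and `q` are consecutive in the list -/
def used (p q : α) : List α → ℕ
  | [] => 0
  | [_] => 0
  | a :: b :: l => (if (a = p ∧ b = q) ∨ (a = q ∧ b = p) then 1 else 0) + used p q (b :: l)

theorem used_of_not_mem {p q : α} : ∀ l : List α, p ∉ l → used p q l = 0
  | [], _ => rfl
  | [_], _ => rfl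
  | a :: b :: l, h => by
    rw [used, used_of_not_mem (b :: l) fun h' => h (List.mem_cons_of_mem _ h'), if_neg]
    rintro (⟨rfl, _⟩ | ⟨_, rfl⟩) <;> simp at h

theorem used_comm (p q : α) : ∀ l : List α, used p q l = used q p l
  | [] => rfl
  | [_] => rfl
  | a :: b :: l => by
    rw [used, used, used_comm p q (b :: l)]
    congr 1
    exact if_congr or_comm rfl rfl

theorem used_le_one {p q : α} : ∀ l : List α, l.Nodup → used p q l ≤ 1
  | [], _ => Nat.zero_le _
  | [_], _ => Nat.zero_le _
  | a :: b :: l, h => by
    rw [used]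
    rw [List.nodup_cons] at h
    split_ifs with hc
    · rcases hc with ⟨rfl, _⟩ | ⟨rfl, _⟩
      · rw [used_of_not_mem _ h.1]
      · rw [used_comm, used_of_not_mem _ h.1]
    · have := used_le_one (p := p) (q := q) (b :: l) h.2
      omega

theorem used_pos {p q : α} : ∀ (l1 l2 : List α), 0 < used p q (l1 ++ p :: q :: l2)
  | [], l2 => by
    rw [List.nil_append, used, if_pos (Or.inl ⟨rfl, rfl⟩)]
    omega
  | [a], l2 => by
    have := used_pos (p := p) (q := q) [] l2
    rw [List.nil_append] at this
    rw [List.singleton_append, used]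
    omega
  | a :: b :: l1, l2 => by
    have := used_pos (p := p) (q := q) (b :: l1) l2
    rw [List.cons_append] at this
    rw [List.cons_append, List.cons_append, used]
    omega

theorem used_pos' {p q : α} (l1 l2 : List α) : 0 < used p q (l1 ++ q :: p :: l2) := by
  rw [used_comm]
  exact used_pos l1 l2

end lists

variable {N : ℕ}

/-- the indicator function of a block -/
def inb (v : K) : W N → ZMod 2
  | Sum.inl x => if x.1 = v then 1 else 0
  | Sum.inr _ => 0

theorem inb_step {A : SimpleGraph (Option (Fin N))} {port : Fin 3 → Fin N} (v : K) {a b : W N}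
    (h : (big A port).Adj a b) : inb v a + inb v b =
      ((∑ c, if (a = Sum.inl (v, port c) ∧ b = kk c v) ∨ (a = kk c v ∧ b = Sum.inl (v, port c))
        then 1 else 0 : ℕ) : ZMod 2) := by
  rcases a with ⟨k, x⟩ | ⟨c, r⟩ <;> rcases b with ⟨k', x'⟩ | ⟨c', r'⟩
  · obtain ⟨h1, h2⟩ := h
    replace h1 : k = k' := h1
    subst h1
    rw [Finset.sum_eq_zero]
    · change (if k = v then (1 : ZMod 2) else 0) + (if k = v then (1 : ZMod 2) else 0) = _
      split_ifs <;> decide
    · intro c _
      rw [if_neg]
      rintro (⟨_, h⟩ | ⟨h, _⟩) <;> cases h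
  · obtain ⟨h1, h2⟩ := h
    replace h1 : x = port c' := h1
    replace h2 : cl c' k = r' := h2
    subst h1 h2
    by_cases hk : k = v
    · subst hk
      rw [Finset.sum_eq_single c']
      · rw [if_pos (Or.inl ⟨rfl, rfl⟩)]
        change (if k = k then (1 : ZMod 2) else 0) + 0 = _
        rw [if_pos rfl]
        decide
      · intro c _ hc
        rw [if_neg]
        rintro (⟨_, h⟩ | ⟨h, _⟩)
        · rw [kk, Sum.inr.injEq, Prod.mk.injEq] at h
          exact hc h.1.symm
        · cases h
      · intro h
        exact absurd (Finset.mem_univ _) h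
    · rw [Finset.sum_eq_zero]
      · change (if k = v then (1 : ZMod 2) else 0) + 0 = _
        rw [if_neg hk]
        decide
      · intro c _
        rw [if_neg]
        rintro (⟨h, _⟩ | ⟨h, _⟩)
        · rw [Sum.inl.injEq, Prod.mk.injEq] at h
          exact hk h.1
        · cases h
  · obtain ⟨h1, h2⟩ := h
    replace h1 : x' = port c := h1
    replace h2 : cl c k' = r := h2
    subst h1 h2
    by_cases hk : k' = v
    · subst hk
      rw [Finset.sum_eq_single c]
      · rw [if_pos (Or.inr ⟨rfl, rfl⟩)]
        change 0 + (if k' = k' then (1 : ZMod 2) else 0) = _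
        rw [if_pos rfl]
        decide
      · intro c' _ hc
        rw [if_neg]
        rintro (⟨h, _⟩ | ⟨h, _⟩)
        · cases h
        · rw [kk, Sum.inr.injEq, Prod.mk.injEq] at h
          exact hc h.1.symm
      · intro h
        exact absurd (Finset.mem_univ _) h
    · rw [Finset.sum_eq_zero]
      · change 0 + (if k' = v then (1 : ZMod 2) else 0) = _
        rw [if_neg hk]
        decide
      · intro c' _
        rw [if_neg]
        rintro (⟨h, _⟩ | ⟨_, h⟩)
        · cases h
        · rw [Sum.inl.injEq, Prod.mk.injEq] at h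
          exact hk h.1
  · exact h.elim

theorem telescope {A : SimpleGraph (Option (Fin N))} {port : Fin 3 → Fin N} (v : K) :
    ∀ (l : List (W N)) (a b : W N), l.IsChain (big A port).Adj → l.head? = some a →
      l.getLast? = some b →
      ((∑ c, used (Sum.inl (v, port c)) (kk c v) l : ℕ) : ZMod 2) = inb v a + inb v b
  | [], a, b, _, h, _ => by cases h
  | [x], a, b, _, h, h' => by
    rw [List.head?_cons, Option.some.injEq] at h
    rw [List.getLast?_singleton, Option.some.injEq] at h'
    subst h h'
    simp only [used, Finset.sum_const_zero, Nat.cast_zero]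
    exact (CharTwo.add_self_eq_zero _).symm
  | x :: y :: l, a, b, hch, h, h' => by
    rw [List.head?_cons, Option.some.injEq] at h
    subst h
    rw [List.isChain_cons_cons] at hch
    have h2 : (y :: l).getLast? = some b := by
      rw [← h', List.getLast?_cons_cons]
    have h1 := telescope v (y :: l) y b hch.2 rfl h2
    simp only [used]
    rw [Finset.sum_add_distrib, Nat.cast_add, h1, ← inb_step v hch.1]
    have : inb v y + inb v y = 0 := CharTwo.add_self_eq_zero _
    linear_combination this

theorem odd_three {f : Fin 3 → ℕ} (h1 : ∀ c, f c ≤ 1) (h : ((∑ c, f c : ℕ) : ZMod 2) = 0) :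
    ∃ c, f c = 0 := by
  by_contra hc
  push Not at hc
  have : ∀ c, f c = 1 := fun c => le_antisymm (h1 c) (Nat.one_le_iff_ne_zero.2 (hc c))
  simp only [this] at h
  exact absurd h (by decide)

theorem nbr_kk {A : SimpleGraph (Option (Fin N))} {port : Fin 3 → Fin N} {c : Fin 3} {v : K}
    {x : W N} (h : (big A port).Adj (kk c v) x) : ∃ k, x = Sum.inl (k, port c) ∧ cl c k = cl c v := by
  rcases x with ⟨k, x⟩ | ⟨d, r⟩
  · obtain ⟨h1, h2⟩ := h
    have h1 : x = port c := h1
    subst h1
    exact ⟨k, rfl, h2⟩
  · exact h.elim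

theorem cl_pair' : ∀ c v v' k, cl c v = cl c v' → cl c k = cl c v → v ≠ v' → k = v ∨ k = v' := by
  decide

theorem kk_end {A : SimpleGraph (Option (Fin N))} {port : Fin 3 → Fin N} {c : Fin 3} {v : K}
    {l : List (W N)} (hch : l.IsChain (big A port).Adj) (hnd : l.Nodup) (hm : kk c v ∈ l)
    (h0 : used (Sum.inl (v, port c)) (kk c v) l = 0) :
    l.head? = some (kk c v) ∨ l.getLast? = some (kk c v) := by
  obtain ⟨l1, l2, rfl⟩ := List.append_of_mem hm
  rcases List.eq_nil_or_concat l1 with rfl | ⟨l1', x, rfl⟩
  · left; rfl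
  · rcases l2 with _ | ⟨y, l2⟩
    · right
      rw [List.getLast?_append]; rfl
    · exfalso
      rw [List.concat_eq_append, List.append_assoc] at *
      simp only [List.singleton_append, List.cons_append, List.nil_append] at *
      have hch1 := (List.isChain_append.1 hch).2.1
      rw [List.isChain_cons_cons, List.isChain_cons_cons] at hch1
      obtain ⟨k, rfl, hk⟩ := nbr_kk hch1.1.symm
      obtain ⟨k', rfl, hk'⟩ := nbr_kk hch1.2.1
      have hnd1 := (List.nodup_append.1 hnd).2.1
      have hne : k ≠ k' := by
        rintro rfl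
        rw [List.nodup_cons] at hnd1
        exact hnd1.1 (by simp)
      rcases cl_pair c v k k' hk hk' hne with rfl | rfl
      · have := used_pos (p := (Sum.inl (k, port c) : W N)) (q := kk c k) l1'
          (Sum.inl (k', port c) :: l2)
        omega
      · have := used_pos' (p := (Sum.inl (k', port c) : W N)) (q := kk c k')
          (l1' ++ [Sum.inl (k, port c)]) l2
        rw [List.append_assoc, List.singleton_append] at this
        omega

theorem kk_inj {A : SimpleGraph (Option (Fin N))} {port : Fin 3 → Fin N} {c : Fin 3} {v v' : K}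
    {l : List (W N)} (hch : l.IsChain (big A port).Adj) (hm : kk c v ∈ l) (hl : 1 < l.length)
    (h : cl c v = cl c v')
    (h0 : used (Sum.inl (v, port c)) (kk c v) l = 0)
    (h0' : used (Sum.inl (v', port c)) (kk c v) l = 0) : v = v' := by
  by_contra hne
  obtain ⟨l1, l2, rfl⟩ := List.append_of_mem hm
  rcases l2 with _ | ⟨y, l2⟩
  · rcases List.eq_nil_or_concat l1 with rfl | ⟨l1', x, rfl⟩
    · simp at hl
    · rw [List.concat_eq_append, List.append_assoc] at *
      simp only [List.singleton_append, List.cons_append, List.nil_append] at *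
      have hch1 := (List.isChain_append.1 hch).2.1
      rw [List.isChain_cons_cons] at hch1
      obtain ⟨k, rfl, hk⟩ := nbr_kk hch1.1.symm
      rcases cl_pair' c v v' k h hk hne with rfl | rfl
      · have := used_pos (p := (Sum.inl (k, port c) : W N)) (q := kk c k) l1' []
        omega
      · have := used_pos (p := (Sum.inl (k, port c) : W N)) (q := kk c v) l1' []
        omega
  · have hch1 := (List.isChain_append.1 hch).2.1
    rw [List.isChain_cons_cons] at hch1
    obtain ⟨k, rfl, hk⟩ := nbr_kk hch1.1
    rcases cl_pair' c v v' k h hk hne with rfl | rfl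
    · have := used_pos' (p := (Sum.inl (k, port c) : W N)) (q := kk c k) l1 l2
      omega
    · have := used_pos' (p := (Sum.inl (k, port c) : W N)) (q := kk c v) l1 l2
      omega

theorem inb_eq_zero {v : K} {a : W N} (h : ∀ x, a ≠ Sum.inl (v, x)) : inb v a = 0 := by
  rcases a with ⟨k, x⟩ | a
  · simp only [inb]
    rw [if_neg]
    rintro rfl
    exact h x rfl
  · rfl

/-- the graph has no Hamiltonian path -/
theorem nontraceable (A : SimpleGraph (Option (Fin N))) (port : Fin 3 → Fin N) (l : List (W N))
    (hch : l.IsChain (big A port).Adj) (hnd : l.Nodup) (hall : ∀ w, w ∈ l) : False := by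
  have hl : 1 < l.length := by
    by_contra hc
    have h1 := hall (kk 0 0)
    have h2 := hall (kk 1 0)
    rcases l with _ | ⟨a, _ | ⟨b, l⟩⟩
    · simp at h1
    · rw [List.mem_singleton] at h1 h2
      rw [← h2] at h1
      simp [kk] at h1
    · simp at hc
  obtain ⟨a, ha⟩ : ∃ a, l.head? = some a := by
    rcases l with _ | ⟨a, l⟩
    · simp at hl
    · exact ⟨a, rfl⟩
  obtain ⟨b, hb⟩ : ∃ b, l.getLast? = some b := by
    rcases List.eq_nil_or_concat l with rfl | ⟨l', x, rfl⟩
    · simp at hl
    · exact ⟨x, by simp⟩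
  have key : ∀ v : K, ∃ w : W N, (w = a ∨ w = b) ∧ ((∃ x, w = Sum.inl (v, x)) ∨
      ∃ c, w = kk c v ∧ used (Sum.inl (v, port c)) (kk c v) l = 0) := by
    intro v
    by_cases h1 : ∃ x, a = Sum.inl (v, x)
    · exact ⟨a, Or.inl rfl, Or.inl h1⟩
    by_cases h2 : ∃ x, b = Sum.inl (v, x)
    · exact ⟨b, Or.inr rfl, Or.inl h2⟩
    push Not at h1 h2
    have h3 := telescope v l a b hch ha hb
    rw [inb_eq_zero h1, inb_eq_zero h2, add_zero] at h3
    obtain ⟨c, hc⟩ := odd_three (fun c => used_le_one l hnd) h3
    rcases kk_end hch hnd (hall _) hc with h4 | h4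
    · rw [ha, Option.some.injEq] at h4
      exact ⟨a, Or.inl rfl, Or.inr ⟨c, h4, hc⟩⟩
    · rw [hb, Option.some.injEq] at h4
      exact ⟨b, Or.inr rfl, Or.inr ⟨c, h4, hc⟩⟩
  choose g hg1 hg2 using key
  have hinj : Function.Injective g := by
    intro v v' hvv
    have e1 := hg2 v
    have e2 := hg2 v'
    rw [← hvv] at e2
    rcases e1 with ⟨x, hx⟩ | ⟨c, hc, h0⟩
    · rcases e2 with ⟨x', hx'⟩ | ⟨c', hc', h0'⟩
      · rw [hx, Sum.inl.injEq, Prod.mk.injEq] at hx'
        exact hx'.1
      · rw [hx] at hc'
        cases hc'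
    · rcases e2 with ⟨x', hx'⟩ | ⟨c', hc', h0'⟩
      · rw [hc] at hx'
        cases hx'
      · have h5 := hc.symm.trans hc'
        rw [kk, kk, Sum.inr.injEq, Prod.mk.injEq] at h5
        obtain ⟨rfl, h5⟩ := h5
        have h6 : (kk c v' : W N) = kk c v := by rw [kk, kk, h5]
        rw [h6] at h0'
        exact kk_inj hch (hall _) hl h5 h0 h0'
  have h7 : Fintype.card K ≤ ({a, b} : Finset (W N)).card := by
    rw [← Finset.card_univ]
    refine Finset.card_le_card_of_injOn g ?_ hinj.injOn
    intro v _
    simpa using hg1 v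
  have h8 : ({a, b} : Finset (W N)).card ≤ 2 := Finset.card_le_two
  have h9 : Fintype.card K = 4 := by decide
  omega

end Pool.Agent.N363.CND
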