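import Pool.Agent.N363.CND.Prop
import Pool.Agent.N363.CND.NonTr
import Pool.Agent.N363.CND.Girth

/-!
Conclusion: a connected nontraceable detour graph of large girth.
-/

set_option autoImplicit false

namespace Pool.Agent.N363.CND

open SimpleGraph

theorem Seg.walk {V : Type*} {G : SimpleGraph V} {x y : V} {l : List V} (h : Seg G x y l) :
    ∃ p : G.Walk x y, p.support = l := by
  have hne : l ≠ [] := by
    rintro rfl
    simpa using h.head
  have hx : l.head hne = x := by
    have := h.head
    rw [List.head?_eq_some_head hne, Option.some.injEq] at this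
    exact this
  have hy : l.getLast hne = y := by
    have := h.last
    rw [List.getLast?_eq_some_getLast hne, Option.some.injEq] at this
    exact this
  exact ⟨(Walk.ofSupport l hne h.chain).copy hx hy, by
    rw [Walk.support_copy, Walk.support_ofSupport]⟩

theorem nodup_of_cover {V : Type*} [Fintype V] {l : List V} {m : V}
    (hm : ∀ w, w ≠ m → w ∈ l) (hl : l.length + 1 = Fintype.card V) : l.Nodup ∧ m ∉ l := by
  classical
  have h1 : Finset.univ.erase m ⊆ l.toFinset := by
    intro w hw
    rw [Finset.mem_erase] at hw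
    exact List.mem_toFinset.2 (hm w hw.1)
  have h2 : (Finset.univ.erase m).card = l.length := by
    rw [Finset.card_erase_of_mem (Finset.mem_univ _), Finset.card_univ]
    omega
  have h3 : l.toFinset.card ≤ l.length := l.toFinset_card_le
  have h4 : Finset.univ.erase m = l.toFinset := Finset.eq_of_subset_of_card_le h1 (by omega)
  constructor
  · have h5 : Multiset.Nodup (l : Multiset V) :=
      Multiset.toFinset_card_eq_card_iff_nodup.1 (by
        change l.toFinset.card = l.length
        rw [← h4, h2])
    exact h5
  · intro h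
    rw [← List.mem_toFinset, ← h4] at h
    simp at h

theorem nodup_of_cover' {V : Type*} [Fintype V] {l : List V}
    (hm : ∀ w, w ∈ l) (hl : l.length = Fintype.card V) : l.Nodup := by
  classical
  have h1 : l.toFinset = Finset.univ := by
    ext w; simp [hm w]
  have h5 : Multiset.Nodup (l : Multiset V) :=
    Multiset.toFinset_card_eq_card_iff_nodup.1 (by
      change l.toFinset.card = l.length
      rw [h1, Finset.card_univ, hl])
  exact h5

variable {N : ℕ}

theorem card_W : Fintype.card (W N) = 4 * N + 6 := by
  simp [W, K]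

theorem kk_injective (v : K) : Function.Injective fun c : Fin 3 => (kk c v : W N) := by
  intro c d h
  have : (Sum.inr (c, cl c v) : W N) = Sum.inr (d, cl d v) := h
  rw [Sum.inr.injEq, Prod.mk.injEq] at this
  exact this.1

theorem exists_third (m1 m2 : W N) : ∃ z : W N, z ≠ m1 ∧ z ≠ m2 := by
  classical
  by_contra hc
  push Not at hc
  have h1 : (Finset.univ : Finset (Fin 3)).card ≤ ({m1, m2} : Finset (W N)).card := by
    refine Finset.card_le_card_of_injOn (fun c => (kk c 0 : W N)) ?_ (kk_injective 0).injOn
    intro c _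
    have := hc (kk c 0)
    rw [Finset.mem_coe, Finset.mem_insert, Finset.mem_singleton]
    by_cases h : (kk c 0 : W N) = m1
    · exact Or.inl h
    · exact Or.inr (this h)
  have h2 : ({m1, m2} : Finset (W N)).card ≤ 2 := Finset.card_le_two
  rw [Finset.card_univ, Fintype.card_fin] at h1
  omega

theorem conclusion (g : ℕ) : ∃ (V : Type) (_ : Finite V) (G : SimpleGraph V),
    (G.Connected ∧ (∀ (a b : V) (p : G.Walk a b), p.IsPath → ∃ v, v ∉ p.support) ∧
      ∀ v, ∃ (w : V) (p : G.Walk v w), p.IsPath ∧
        ∀ (a b : V) (q : G.Walk a b), q.IsPath → q.length ≤ p.length) ∧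
    ¬ G.IsAcyclic ∧ g ≤ G.girth := by
  obtain ⟨N, A, port, hinj, hgA, hz, h1, h2, h3⟩ := block g
  have hB := blockProp hinj hz h1 h2 h3
  have hnt : ∀ (a b : W N) (p : (big A port).Walk a b), p.IsPath → ∃ v, v ∉ p.support := by
    intro a b p hp
    by_contra hc
    push Not at hc
    exact nontraceable A port p.support p.isChain_adj_support ((Walk.isPath_def _).1 hp) hc
  have hlong : ∀ v : W N, ∃ (w m : W N) (p : (big A port).Walk v w), p.IsPath ∧
      (∀ u, u ≠ m → u ∈ p.support) ∧ p.length = 4 * N + 4 := by
    intro v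
    obtain ⟨w, m, l, hseg, hm, hlen⟩ := long_paths hB v
    obtain ⟨p, hp⟩ := hseg.walk
    have hnd := nodup_of_cover hm (by rw [card_W]; omega)
    refine ⟨w, m, p, ?_, ?_, ?_⟩
    · rw [Walk.isPath_def, hp]
      exact hnd.1
    · rw [hp]; exact hm
    · have := p.length_support
      rw [hp] at this
      omega
  have hnac : ¬ (big A port).IsAcyclic := by
    intro hac
    obtain ⟨l, hl, hc, hlen⟩ := hB.ham 0 1 (by decide)
    obtain ⟨l', hl', hc', hlen'⟩ := hB.ham' 2 0 1 (by decide) (by decide) (by decide)
    have hnd := nodup_of_cover' hc (by rw [hlen, Fintype.card_fin])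
    have hnd' := nodup_of_cover hc' (by rw [hlen', Fintype.card_fin])
    have hinj0 : Function.Injective fun a : Fin N => (Sum.inl (0, a) : W N) := by
      intro a b h
      simpa using h
    obtain ⟨p, hp⟩ := (Seg.lift (port := port) hl 0).walk
    obtain ⟨p', hp'⟩ := (Seg.lift (port := port) hl' 0).walk
    have hpp : p.IsPath := by
      rw [Walk.isPath_def, hp]
      exact hnd.map hinj0
    have hpp' : p'.IsPath := by
      rw [Walk.isPath_def, hp']
      exact hnd'.1.map hinj0
    have heq := congrArg (fun q : (big A port).Path _ _ => q.1.support)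
      (hac.path_unique ⟨p, hpp⟩ ⟨p', hpp'⟩)
    simp only at heq
    rw [hp, hp'] at heq
    have h5 : (Sum.inl (0, port 2) : W N) ∈ l.map fun a => Sum.inl (0, a) :=
      List.mem_map_of_mem (hc _)
    rw [heq, List.mem_map_of_injective hinj0] at h5
    exact hnd'.2 h5
  refine ⟨W N, inferInstance, big A port, ⟨?_, hnt, ?_⟩, hnac, ?_⟩
  · have : Nonempty (W N) := ⟨kk 0 0⟩
    refine ⟨fun u w => ?_⟩
    obtain ⟨_, m, p, _, hm, _⟩ := hlong u
    obtain ⟨_, m', p', _, hm', _⟩ := hlong w
    obtain ⟨z, hz1, hz2⟩ := exists_third m m'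
    classical
    exact (p.takeUntil z (hm z hz1)).reachable.trans
      (p'.takeUntil z (hm' z hz2)).reachable.symm
  · intro v
    obtain ⟨w, m, p, hp, hm, hlen⟩ := hlong v
    refine ⟨w, p, hp, fun a b q hq => ?_⟩
    classical
    have h4 : q.support.length ≤ Fintype.card (W N) :=
      ((Walk.isPath_def _).1 hq).length_le_card
    rw [card_W, q.length_support] at h4
    rw [hlen]
    by_contra hcon
    obtain ⟨x, hx⟩ := hnt a b q hq
    have h6 : (x :: q.support).Nodup := by
      rw [List.nodup_cons]
      exact ⟨hx, (Walk.isPath_def _).1 hq⟩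
    have h7 := h6.length_le_card
    rw [card_W, List.length_cons, q.length_support] at h7
    omega
  · obtain ⟨a, w, hw, hg⟩ := exists_girth_eq_length.2 hnac
    rw [hg]
    exact noShort_big hgA hinj hz a w hw

end Pool.Agent.N363.CND
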