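import Pool.Agent.N363.CND.Asm

/-!
The blocks have the properties used in the construction.
-/

set_option autoImplicit false

namespace Pool.Agent.N363.CND

open SimpleGraph

variable {N : ℕ}

theorem exists_map_some {l : List (Option (Fin N))} (h : none ∉ l) :
    ∃ l' : List (Fin N), l = l'.map some := by
  induction l with
  | nil => exact ⟨[], rfl⟩
  | cons a l ih =>
    rw [List.mem_cons, not_or] at h
    obtain ⟨l', rfl⟩ := ih h.2
    cases a with
    | none => exact absurd rfl h.1
    | some a => exact ⟨a :: l', rfl⟩

theorem Seg.unlift {A : SimpleGraph (Option (Fin N))} {x y : Fin N} {l : List (Fin N)}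
    (h : Seg A (some x) (some y) (l.map some)) : Seg (core A) x y l where
  chain := by
    have := h.chain
    rw [List.isChain_map] at this
    exact this
  head := by
    have := h.head
    rw [List.head?_map] at this
    exact Option.map_injective (Option.some_injective _) this
  last := by
    have := h.last
    rw [List.getLast?_map] at this
    exact Option.map_injective (Option.some_injective _) this

theorem length_of_cover {l : List (Fin N)} (hn : l.Nodup) (h : ∀ v, v ∈ l) : l.length = N := by
  have h1 : l.toFinset = Finset.univ := by
    ext v; simp [h v]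
  have h2 := List.toFinset_card_of_nodup hn
  rw [h1, Finset.card_univ, Fintype.card_fin] at h2
  exact h2.symm

theorem length_of_cover' {l : List (Fin N)} {p : Fin N} (hn : l.Nodup)
    (h : ∀ v, v ∈ l ↔ v ≠ p) : l.length + 1 = N := by
  have h1 : (p :: l).length = N := by
    refine length_of_cover ?_ fun v => ?_
    · rw [List.nodup_cons]
      exact ⟨fun h' => (h p).1 h' rfl, hn⟩
    · rw [List.mem_cons, h]
      tauto
  simpa using h1

theorem three' : ∀ i j : Fin 3, i ≠ 2 → j ≠ 2 → i ≠ j → ∀ c : Fin 3, c = 2 ∨ c = i ∨ c = j := by
  decide

theorem blockProp {A : SimpleGraph (Option (Fin N))} {port : Fin 3 → Fin N}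
    (hinj : Function.Injective port) (hz : ∀ v, A.Adj none v ↔ ∃ c, v = some (port c))
    (h1 : ∀ i j, i ≠ j → ∃ l, HP A {v | v ≠ none} none (some (port i)) (some (port j)) l)
    (h2 : ∀ i j k, i ≠ j → j ≠ k → i ≠ k → ∃ l, HP A {v | v ≠ none ∧ v ≠ some (port i)} none
      (some (port j)) (some (port k)) l)
    (h3 : ∀ x : Fin N, (∀ c, x ≠ port c) →
      ∃ l, HP A Set.univ none (some (port 2)) (some x) l) :
    BlockProp (core A) port := by
  have h2' : ∀ i j k, i ≠ j → j ≠ k → i ≠ k → ∃ l, Seg (core A) (port j) (port k) l ∧
      (∀ v, v ≠ port i → v ∈ l) ∧ l.length + 1 = N := by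
    intro i j k hij hjk hik
    obtain ⟨l, hl⟩ := h2 i j k hij hjk hik
    obtain ⟨l', rfl⟩ := exists_map_some (l := l) fun h => ((hl.mem none).1 h).1 rfl
    have hm : ∀ v, v ∈ l' ↔ v ≠ port i := by
      intro v
      have := hl.mem (some v)
      rw [List.mem_map_of_injective (Option.some_injective _)] at this
      rw [this]
      simp
    exact ⟨l', (Seg.mk hl.chain hl.head hl.last).unlift, fun v hv => (hm v).2 hv,
      length_of_cover' (List.Nodup.of_map _ hl.nodup) hm⟩
  refine ⟨hinj, ?_, h2', ?_⟩
  · intro i j hij
    obtain ⟨l, hl⟩ := h1 i j hij
    obtain ⟨l', rfl⟩ := exists_map_some (l := l) fun h => ((hl.mem none).1 h) rfl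
    have hm : ∀ v, v ∈ l' := by
      intro v
      have := hl.mem (some v)
      rw [List.mem_map_of_injective (Option.some_injective _)] at this
      rw [this]
      simp
    exact ⟨l', (Seg.mk hl.chain hl.head hl.last).unlift, hm,
      length_of_cover (List.Nodup.of_map _ hl.nodup) hm⟩
  · intro x
    by_cases hx : ∃ a, x = port a
    · obtain ⟨a, rfl⟩ := hx
      obtain ⟨b, c, hab, hbc, hac⟩ := others a
      obtain ⟨l, hl, hm, hlen⟩ := h2' a b c hab hbc hac
      refine ⟨a, b, c, [port a], l, hab, hbc, hac, Seg.single _, hl, fun v => ?_, ?_⟩
      · by_cases hv : v = port a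
        · left; simp [hv]
        · right; exact hm v hv
      · simp only [List.length_singleton]; omega
    · push Not at hx
      obtain ⟨l, hl⟩ := h3 x hx
      obtain ⟨s, t, rfl⟩ := List.mem_iff_append.1 ((hl.mem none).2 (Set.mem_univ _))
      have hn := hl.nodup
      rw [List.nodup_middle, List.nodup_cons, List.mem_append, not_or] at hn
      obtain ⟨s, rfl⟩ := exists_map_some hn.1.1
      obtain ⟨t, rfl⟩ := exists_map_some hn.1.2
      have hne_s : s ≠ [] := by
        rintro rfl
        simpa using hl.head
      have hne_t : t ≠ [] := by
        rintro rfl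
        simpa using hl.last
      have hc := hl.chain
      have hs2 : s.head? = some (port 2) := by
        have := hl.head
        cases s with
        | nil => exact absurd rfl hne_s
        | cons a s => simpa using this
      have ht2 : t.getLast? = some x := by
        have := hl.last
        rw [List.getLast?_append, List.getLast?_cons, List.getLast?_map] at this
        cases h4 : t.getLast? with
        | none => rw [List.getLast?_eq_none_iff] at h4; exact absurd h4 hne_t
        | some w => rw [h4] at this; simpa using this
      obtain ⟨w, hw⟩ : ∃ w, s.getLast? = some w := ⟨_, List.getLast?_eq_some_getLast hne_s⟩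
      obtain ⟨w', hw'⟩ : ∃ w', t.head? = some w' := ⟨_, List.head?_eq_some_head hne_t⟩
      rw [List.isChain_append, List.isChain_cons] at hc
      obtain ⟨hc1, ⟨hc2, hc3⟩, hc4⟩ := hc
      have hadj1 : A.Adj none (some w) := by
        refine (hc4 (some w) ?_ none (by simp)).symm
        rw [List.getLast?_map, hw]; rfl
      have hadj2 : A.Adj none (some w') := by
        refine hc2 (some w') ?_
        rw [List.head?_map, hw']; rfl
      obtain ⟨i, hi⟩ := (hz _).1 hadj1
      obtain ⟨j, hj⟩ := (hz _).1 hadj2
      have hi' : w = port i := Option.some.inj hi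
      have hj' : w' = port j := Option.some.inj hj
      subst hi' hj'
      rw [← List.map_append] at hn
      have hnd : (s ++ t).Nodup := List.Nodup.of_map _ hn.2
      have hdisj := (List.nodup_append.1 hnd).2.2
      have hjt : port j ∈ t := List.mem_of_head? hw'
      have h2s : port 2 ∈ s := List.mem_of_head? hs2
      have his : port i ∈ s := List.mem_of_getLast? hw
      have hj2 : j ≠ 2 := by
        rintro rfl
        exact hdisj _ h2s _ hjt rfl
      have hij : i ≠ j := by
        rintro rfl
        exact hdisj _ his _ hjt rfl
      have hi2 : i ≠ 2 := by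
        rintro rfl
        cases s with
        | nil => exact absurd rfl hne_s
        | cons a s =>
          have ha : a = port 2 := by simpa using hs2
          subst ha
          cases s with
          | nil => exact hl.second none (t.map some) (by simp) rfl
          | cons b s =>
            rw [List.getLast?_cons_cons] at hw
            have h5 : port 2 ∈ b :: s := List.mem_of_getLast? hw
            have h6 := (List.nodup_append.1 hnd).1
            rw [List.nodup_cons] at h6
            exact h6.1 h5
      have hs : Seg (core A) (port 2) (port i) s :=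
        Seg.unlift ⟨hc1, by rw [List.head?_map, hs2]; rfl, by rw [List.getLast?_map, hw]; rfl⟩
      have ht : Seg (core A) (port j) x t :=
        Seg.unlift ⟨hc3, by rw [List.head?_map, hw']; rfl, by rw [List.getLast?_map, ht2]; rfl⟩
      have hall : ∀ v, v ∈ s ++ t := by
        intro v
        have := (hl.mem (some v)).2 (Set.mem_univ _)
        simpa using this
      refine ⟨j, i, 2, t.reverse, s.reverse, hij.symm, hi2, hj2, ht.reverse, hs.reverse, ?_, ?_⟩
      · intro v
        rw [List.mem_reverse, List.mem_reverse]
        exact (List.mem_append.1 (hall v)).symm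
      · have := length_of_cover hnd hall
        rw [List.length_append] at this
        rw [List.length_reverse, List.length_reverse]
        omega

end Pool.Agent.N363.CND
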