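import Pool.Agent.N363.CND.Basic

/-!
Hamiltonian paths of a set `S` of vertices as lists, and rotations.
-/

set_option autoImplicit false

namespace Pool.Agent.N363.CND

open SimpleGraph

variable {V : Type*}

/-- `l` is a Hamiltonian path of `S` from `p` to `x`, whose second vertex is not `z` -/
structure HP (G : SimpleGraph V) (S : Set V) (z p x : V) (l : List V) : Prop where
  nodup : l.Nodup
  mem : ∀ v, v ∈ l ↔ v ∈ S
  chain : l.IsChain G.Adj
  head : l.head? = some p
  last : l.getLast? = some x
  second : ∀ q t, l = p :: q :: t → q ≠ z

theorem HP.mono {G G' : SimpleGraph V} (hG : G ≤ G') {S : Set V} {z p x : V} {l : List V}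
    (h : HP G S z p x l) : HP G' S z p x l :=
  { h with chain := h.chain.imp fun _ _ h' => hG h' }

/-- the rotation with the chord from `y` to the predecessor `w` of `x` -/
theorem HP.rotate {G : SimpleGraph V} {S : Set V} {z p y x : V} {l : List V}
    (h : HP G S z p y l) (hx : x ∈ S) (hxp : x ≠ p) (hxy : x ≠ y) (hyz : y ≠ z) :
    ∃ w, w ∈ S ∧ G.Adj w x ∧ ∀ G' : SimpleGraph V, G ≤ G' → G'.Adj y w →
      ∃ l', HP G' S z p x l' := by
  obtain ⟨s, t, rfl⟩ := List.mem_iff_append.1 ((h.mem x).2 hx)
  rcases List.eq_nil_or_concat s with rfl | ⟨s', w, rfl⟩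
  · exact absurd (by simpa using h.head) hxp
  have ht : t ≠ [] := by
    rintro rfl
    exact hxy (by simpa using h.last)
  obtain ⟨t', y', rfl⟩ : ∃ t' y', t = t' ++ [y'] := by
    rcases List.eq_nil_or_concat t with rfl | ⟨t', y', rfl⟩
    · exact absurd rfl ht
    · exact ⟨t', y', by simp⟩
  have hy' : y' = y := by
    have := h.last
    rw [List.concat_eq_append, show (s' ++ [w]) ++ x :: (t' ++ [y']) =
      ((s' ++ [w]) ++ x :: t') ++ [y'] by simp, List.getLast?_append] at this
    simpa using this
  subst hy'
  have hc := h.chain
  rw [List.concat_eq_append] at hc h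
  have hwS : w ∈ S := (h.mem w).1 (by simp)
  have hwx : G.Adj w x := by
    rw [List.append_assoc, List.singleton_append, List.isChain_append_cons_cons] at hc
    exact hc.2.1
  refine ⟨w, hwS, hwx, fun G' hG hyw => ⟨(s' ++ [w]) ++ (x :: (t' ++ [y'])).reverse, ?_, ?_, ?_,
    ?_, ?_, ?_⟩⟩
  · have : ((s' ++ [w]) ++ (x :: (t' ++ [y'])).reverse).Perm ((s' ++ [w]) ++ x :: (t' ++ [y'])) :=
      List.Perm.append_left _ (List.reverse_perm _)
    exact this.nodup_iff.2 h.nodup
  · intro v
    rw [← h.mem v]
    simp only [List.mem_append, List.mem_reverse]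
  · have h1 : (s' ++ [w]).IsChain G'.Adj :=
      (hc.left_of_append).imp fun _ _ h' => hG h'
    have h2 : (x :: (t' ++ [y'])).reverse.IsChain G'.Adj := by
      rw [List.isChain_reverse]
      exact (hc.right_of_append).imp fun _ _ h' => (hG h').symm
    refine h1.append h2 ?_
    intro a ha b hb
    have ha' : a = w := by simpa using ha.symm
    have hb' : b = y' := by
      rw [List.head?_reverse, show x :: (t' ++ [y']) = (x :: t') ++ [y'] by simp,
        List.getLast?_append] at hb
      simpa using hb.symm
    rw [ha', hb']
    exact hyw.symm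
  · have := h.head
    rw [List.head?_append] at this ⊢
    cases s' with
    | nil => simpa using this
    | cons a s' => simpa using this
  · rw [show (x :: (t' ++ [y'])).reverse = (y' :: t'.reverse) ++ [x] by simp,
      ← List.append_assoc, List.getLast?_append]
    simp
  · intro q r hqr
    cases s' with
    | nil =>
      have h1 : (x :: (t' ++ [y'])).reverse = q :: r := by
        have := hqr
        simp only [List.nil_append, List.singleton_append, List.cons.injEq] at this
        exact this.2
      have h2 : (x :: (t' ++ [y'])).reverse = y' :: (t'.reverse ++ [x]) := by simp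
      rw [h2] at h1
      rw [← (List.cons.inj h1).1]
      exact hyz
    | cons a s' =>
      have h0 : a = p := by
        have := h.head
        simpa using this
      subst h0
      cases s' with
      | nil =>
        simp only [List.cons_append, List.nil_append, List.cons.injEq, true_and] at hqr
        have := h.second w (x :: (t' ++ [y'])) (by simp)
        rw [← hqr.1]
        exact this
      | cons b s' =>
        simp only [List.cons_append, List.cons.injEq, true_and] at hqr
        have := h.second b (s' ++ [w] ++ x :: (t' ++ [y'])) (by simp)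
        rw [← hqr.1]
        exact this

end Pool.Agent.N363.CND
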