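import Pool.Agent.N363.CND.Rot

/-!
The greedy process: adding few chords one can reach all vertices of a set `T` as ends of
Hamiltonian paths of `S` which start in a fixed vertex `p`.
-/

set_option autoImplicit false

namespace Pool.Agent.N363.CND

open SimpleGraph

variable {V : Type*} [Fintype V] [DecidableEq V]

/-- states of the process: `Y` is a set of vertices reached so far, `yc` counts the chords used at
a member of `Y` -/
structure St (G0 : SimpleGraph V) (g D : ℕ) (z p : V) (S : Set V) (G : SimpleGraph V)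
    (Y : Finset V) (yc : V → ℕ) : Prop where
  le : G0 ≤ G
  zadj : ∀ v, G.Adj z v → G0.Adj z v
  girth : NoShort g G
  hp : ∀ y ∈ Y, y ≠ z ∧ ∃ l, HP G S z p y l
  deg : ∀ v, (nb G v).card + (nb G v \ Y).card ≤ 2 * D + 2 * yc v
  yc2 : ∀ v, yc v ≤ 2
  sum : ∑ v, yc v + 1 ≤ Y.card
  supp : ∀ v, v ∉ Y → yc v = 0

theorem St.card_nb {G0 : SimpleGraph V} {g D : ℕ} {z p : V} {S : Set V} {G : SimpleGraph V}
    {Y : Finset V} {yc : V → ℕ} (h : St G0 g D z p S G Y yc) (v : V) :
    (nb G v).card ≤ 2 * D + 4 := by
  have h1 := h.deg v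
  have h2 := h.yc2 v
  omega

theorem nb_sup_edge {G : SimpleGraph V} {a b v : V} :
    nb (G ⊔ edge a b) v ⊆ nb G v ∪ (if v = a then {b} else ∅) ∪ (if v = b then {a} else ∅) := by
  intro u hu
  rw [mem_nb, sup_adj] at hu
  rw [Finset.mem_union, Finset.mem_union, mem_nb]
  rcases hu with hu | hu
  · exact Or.inl (Or.inl hu)
  · rw [edge_adj] at hu
    rcases hu.1 with ⟨h1, h2⟩ | ⟨h1, h2⟩
    · left; right; rw [if_pos h1, h2]; simp
    · right; rw [if_pos h1, h2]; simp

/-- one step -/
theorem St.step {G0 : SimpleGraph V} {g D : ℕ} {z p : V} {S : Set V} {G : SimpleGraph V}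
    {Y : Finset V} {yc : V → ℕ} (h : St G0 g D z p S G Y yc) {y x : V} (hy : y ∈ Y)
    (hyc : yc y < 2) (hxY : x ∉ Y) (hxS : x ∈ S) (hxp : x ≠ p) (hxz : x ≠ z)
    (hzx : z ∈ S → ¬ G0.Adj z x) (hfar : ¬ Near G (g + 1) y x) :
    ∃ (G' : SimpleGraph V) (yc' : V → ℕ), G ≤ G' ∧ St G0 g D z p S G' (insert x Y) yc' := by
  obtain ⟨hyz, l, hl⟩ := h.hp y hy
  have hxy : x ≠ y := fun h' => hxY (h' ▸ hy)
  obtain ⟨w, hwS, hwx, hrot⟩ := hl.rotate hxS hxp hxy hyz
  have hwz : w ≠ z := by
    rintro rfl
    exact hzx hwS (h.zadj _ hwx)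
  have hwy : w ≠ y := by
    rintro rfl
    exact hfar (Near.mono le_rfl (by omega) (Near.cons hwx (near_refl G 0 x)))
  have hfar' : ¬ Near G g y w := fun h' => hfar (h'.concat hwx)
  set G' : SimpleGraph V := G ⊔ edge y w with hG'
  have hle : G ≤ G' := le_sup_left
  have hadj : G'.Adj y w := by
    rw [hG', sup_adj]
    right
    rw [edge_adj]
    exact ⟨Or.inl ⟨rfl, rfl⟩, hwy.symm⟩
  refine ⟨G', Function.update yc y (yc y + 1), hle, ?_⟩
  constructor
  · exact h.le.trans hle
  · intro v hv
    rw [hG', sup_adj] at hv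
    rcases hv with hv | hv
    · exact h.zadj v hv
    · rw [edge_adj] at hv
      rcases hv.1 with ⟨h1, -⟩ | ⟨h1, -⟩
      · exact absurd h1.symm hyz
      · exact absurd h1.symm hwz
  · exact h.girth.add hfar'
  · intro y' hy'
    rcases Finset.mem_insert.1 hy' with rfl | hy'
    · exact ⟨hxz, hrot G' hle hadj⟩
    · obtain ⟨h1, l', h2⟩ := h.hp y' hy'
      exact ⟨h1, l', h2.mono hle⟩
  · intro v
    have hsub : nb G' v ⊆ nb G v ∪ (if v = y then {w} else ∅) ∪ (if v = w then {y} else ∅) :=
      nb_sup_edge
    have hd := h.deg v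
    by_cases hvy : v = y
    · subst hvy
      rw [if_pos rfl, if_neg hwy.symm, Finset.union_empty] at hsub
      rw [Function.update_self]
      have h1 : (nb G' v).card ≤ (nb G v).card + 1 := by
        refine (Finset.card_le_card hsub).trans ((Finset.card_union_le _ _).trans ?_)
        simp
      have h2 : (nb G' v \ insert x Y).card ≤ (nb G v \ Y).card + 1 := by
        have : nb G' v \ insert x Y ⊆ (nb G v \ Y) ∪ {w} := by
          intro u hu
          rw [Finset.mem_sdiff, Finset.mem_insert, not_or] at hu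
          have := hsub hu.1
          rw [Finset.mem_union] at this ⊢
          rcases this with h3 | h3
          · left; exact Finset.mem_sdiff.2 ⟨h3, hu.2.2⟩
          · right; exact h3
        refine (Finset.card_le_card this).trans ((Finset.card_union_le _ _).trans ?_)
        simp
      omega
    · rw [Function.update_of_ne hvy]
      by_cases hvw : v = w
      · subst hvw
        rw [if_neg hvy, if_pos rfl, Finset.union_empty] at hsub
        have h1 : (nb G' v).card ≤ (nb G v).card + 1 := by
          refine (Finset.card_le_card hsub).trans ((Finset.card_union_le _ _).trans ?_)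
          simp
        have h2 : (nb G' v \ insert x Y).card + 1 ≤ (nb G v \ Y).card := by
          have : insert x (nb G' v \ insert x Y) ⊆ nb G v \ Y := by
            intro u hu
            rcases Finset.mem_insert.1 hu with rfl | hu
            · exact Finset.mem_sdiff.2 ⟨mem_nb.2 hwx, hxY⟩
            · rw [Finset.mem_sdiff, Finset.mem_insert, not_or] at hu
              have := hsub hu.1
              rw [Finset.mem_union, Finset.mem_singleton] at this
              rcases this with h3 | h3
              · exact Finset.mem_sdiff.2 ⟨h3, hu.2.2⟩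
              · exact absurd (h3 ▸ hy) hu.2.2
          have h3 := Finset.card_le_card this
          rwa [Finset.card_insert_of_notMem] at h3
          rw [Finset.mem_sdiff, Finset.mem_insert]
          tauto
        omega
      · rw [if_neg hvy, if_neg hvw, Finset.union_empty, Finset.union_empty] at hsub
        have h1 := Finset.card_le_card hsub
        have h2 : (nb G' v \ insert x Y).card ≤ (nb G v \ Y).card := by
          refine Finset.card_le_card fun u hu => ?_
          rw [Finset.mem_sdiff, Finset.mem_insert, not_or] at hu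
          exact Finset.mem_sdiff.2 ⟨hsub hu.1, hu.2.2⟩
        omega
  · intro v
    by_cases hvy : v = y
    · subst hvy; rw [Function.update_self]; omega
    · rw [Function.update_of_ne hvy]; exact h.yc2 v
  · have h1 : ∑ v, Function.update yc y (yc y + 1) v = ∑ v, yc v + 1 := by
      rw [Finset.sum_update_of_mem (Finset.mem_univ y), ← Finset.add_sum_erase _ yc
        (Finset.mem_univ y), Finset.sdiff_singleton_eq_erase]
      ring
    rw [h1, Finset.card_insert_of_notMem hxY]
    have := h.sum
    omega
  · intro v hv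
    rw [Finset.mem_insert, not_or] at hv
    have hvy : v ≠ y := by
      rintro rfl
      exact hv.2 hy
    rw [Function.update_of_ne hvy]
    exact h.supp v hv.2

/-- number of members of `Y` which can still be used -/
theorem St.card_free {G0 : SimpleGraph V} {g D : ℕ} {z p : V} {S : Set V} {G : SimpleGraph V}
    {Y : Finset V} {yc : V → ℕ} (h : St G0 g D z p S G Y yc) :
    Y.card + 1 ≤ 2 * (Y.filter fun y => yc y < 2).card := by
  have h1 : 2 * (Y.filter fun y => ¬ yc y < 2).card ≤ ∑ v, yc v := by
    calc 2 * (Y.filter fun y => ¬ yc y < 2).card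
        = ∑ _y ∈ Y.filter fun y => ¬ yc y < 2, 2 := by rw [Finset.sum_const, smul_eq_mul, mul_comm]
      _ ≤ ∑ y ∈ Y.filter fun y => ¬ yc y < 2, yc y := by
        refine Finset.sum_le_sum fun y hy => ?_
        have := (Finset.mem_filter.1 hy).2
        omega
      _ ≤ ∑ v, yc v := Finset.sum_le_sum_of_subset (Finset.subset_univ _)
  have h2 := Finset.card_filter_add_card_filter_not (s := Y) (fun y => yc y < 2)
  have h3 := h.sum
  omega

/-- the whole process -/
theorem run {G0 : SimpleGraph V} {g D : ℕ} (hg : NoShort g G0) (hD : ∀ v, (nb G0 v).card ≤ D)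
    {z p y0 : V} {S : Set V} {l0 : List V} (h0 : HP G0 S z p y0 l0) (hy0 : y0 ≠ z)
    (T : Finset V) (hT : ∀ x ∈ T, x ∈ S ∧ x ≠ p ∧ x ≠ z ∧ (z ∈ S → ¬ G0.Adj z x)) {M : ℕ}
    (hM : (2 * D + 5) ^ (g + 1) ≤ M) (hTM : 4 * M + 10 ≤ T.card) :
    ∃ G : SimpleGraph V, G0 ≤ G ∧ (∀ v, G.Adj z v → G0.Adj z v) ∧ NoShort g G ∧
      (∀ v, (nb G v).card ≤ 2 * D + 4) ∧ ∀ x ∈ T, ∃ l, HP G S z p x l := by
  have hball : ∀ {G : SimpleGraph V} {Y : Finset V} {yc : V → ℕ}, St G0 g D z p S G Y yc →
      ∀ v, (ball G (g + 1) v).card ≤ M := fun h v =>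
    (card_ball (fun v => h.card_nb v) (g + 1) v).trans hM
  -- the first phase
  have phase1 : ∀ m : ℕ, m ≤ 2 * M → ∃ (G : SimpleGraph V) (Y : Finset V) (yc : V → ℕ),
      m + 1 = Y.card ∧ St G0 g D z p S G Y yc := by
    intro m
    induction m with
    | zero =>
      intro _
      refine ⟨G0, {y0}, fun _ => 0, by simp, le_rfl, fun _ h => h, hg, ?_, ?_, by simp, by simp,
        by simp⟩
      · intro y hy
        rw [Finset.mem_singleton] at hy
        subst hy
        exact ⟨hy0, l0, h0⟩
      · intro v
        have h1 := hD v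
        have h2 : (nb G0 v \ {y0}).card ≤ (nb G0 v).card := Finset.card_le_card Finset.sdiff_subset
        omega
    | succ m ih =>
      intro hm
      obtain ⟨G, Y, yc, hY, hst⟩ := ih (by omega)
      have hfree := hst.card_free
      obtain ⟨y, hy⟩ : (Y.filter fun y => yc y < 2).Nonempty := by
        rw [← Finset.card_pos]
        omega
      rw [Finset.mem_filter] at hy
      have hx : ∃ x ∈ T, x ∉ Y ∪ ball G (g + 1) y := by
        by_contra hcon
        push Not at hcon
        have h1 : T ⊆ Y ∪ ball G (g + 1) y := hcon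
        have h2 := (Finset.card_le_card h1).trans (Finset.card_union_le _ _)
        have h3 := hball hst y
        omega
      obtain ⟨x, hxT, hx⟩ := hx
      rw [Finset.mem_union, not_or, mem_ball] at hx
      obtain ⟨h1, h2, h3, h4⟩ := hT x hxT
      obtain ⟨G', yc', -, hst'⟩ := hst.step hy.1 hy.2 hx.1 h1 h2 h3 h4 hx.2
      exact ⟨G', insert x Y, yc', by rw [Finset.card_insert_of_notMem hx.1, hY], hst'⟩
  -- the second phase
  have phase2 : ∀ T' : Finset V, T' ⊆ T → ∃ (G : SimpleGraph V) (Y : Finset V) (yc : V → ℕ),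
      2 * M + 1 ≤ Y.card ∧ T' ⊆ Y ∧ St G0 g D z p S G Y yc := by
    intro T'
    induction T' using Finset.induction_on with
    | empty =>
      intro _
      obtain ⟨G, Y, yc, hY, hst⟩ := phase1 (2 * M) le_rfl
      exact ⟨G, Y, yc, by omega, Finset.empty_subset _, hst⟩
    | @insert x T' hx ih =>
      intro hT'
      obtain ⟨G, Y, yc, hY, hTY, hst⟩ := ih fun u hu => hT' (Finset.mem_insert_of_mem hu)
      by_cases hxY : x ∈ Y
      · exact ⟨G, Y, yc, hY, Finset.insert_subset hxY hTY, hst⟩
      · have hfree := hst.card_free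
        have hy : ∃ y ∈ Y.filter fun y => yc y < 2, y ∉ ball G (g + 1) x := by
          by_contra hcon
          push Not at hcon
          have h1 : (Y.filter fun y => yc y < 2) ⊆ ball G (g + 1) x := hcon
          have h2 := Finset.card_le_card h1
          have h3 := hball hst x
          omega
        obtain ⟨y, hy, hyx⟩ := hy
        rw [Finset.mem_filter] at hy
        rw [mem_ball] at hyx
        obtain ⟨h1, h2, h3, h4⟩ := hT x (hT' (Finset.mem_insert_self _ _))
        obtain ⟨G', yc', -, hst'⟩ := hst.step hy.1 hy.2 hxY h1 h2 h3 h4 fun h => hyx h.symm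
        refine ⟨G', insert x Y, yc', ?_, Finset.insert_subset (Finset.mem_insert_self _ _)
          (hTY.trans (Finset.subset_insert _ _)), hst'⟩
        rw [Finset.card_insert_of_notMem hxY]
        omega
  obtain ⟨G, Y, yc, -, hTY, hst⟩ := phase2 T (Finset.Subset.refl _)
  exact ⟨G, hst.le, hst.zadj, hst.girth, hst.card_nb, fun x hx => (hst.hp x (hTY hx)).2⟩

end Pool.Agent.N363.CND
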